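import Mathlib
import Pool.Agent.H44.Shore.Polar
import Pool.Agent.H44.Shore.Row

/-!
Gluing the intervals of radii to a certificate.
-/

namespace Pool.Agent.H81.Shore

open MeasureTheory Set Filter Topology
open Pool.Agent.H44.Shore

/-- a radial weight which works on the interval `[a, b]` -/
structure Piece (D : Dat) (a b : ℝ) (m : ℝ → ℝ) (Kr : Set ℝ) : Prop where
  meas : Measurable m
  bdd : ∃ C, ∀ r, |m r| ≤ C
  count : Kr.Countable
  cont : ∀ r, 0 < r → r ∉ Kr → ContinuousAt m r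
  main : ∀ r, 0 < r → a ≤ r → r ≤ b → ∀ v : ℝ × ℝ, v.1 ^ 2 + v.2 ^ 2 ≤ 1 → 0 ≤ v.2 →
    FF D r (m r) v ≤ 0

/-- existence of such a weight -/
def PP (D : Dat) (a b : ℝ) : Prop := ∃ m Kr, Piece D a b m Kr

theorem PP.mono {D : Dat} {a b a' b' : ℝ} (h : PP D a b) (ha : a ≤ a') (hb : b' ≤ b) :
    PP D a' b' := by
  obtain ⟨m, Kr, h⟩ := h
  exact ⟨m, Kr, h.meas, h.bdd, h.count, h.cont,
    fun r h0 h1 h2 => h.main r h0 (ha.trans h1) (h2.trans hb)⟩

theorem PP.glue {D : Dat} {a b c : ℝ} (h1 : PP D a b) (h2 : PP D b c) : PP D a c := by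
  obtain ⟨m1, K1, h1⟩ := h1
  obtain ⟨m2, K2, h2⟩ := h2
  obtain ⟨C1, hC1⟩ := h1.bdd
  obtain ⟨C2, hC2⟩ := h2.bdd
  refine ⟨fun r => if r ≤ b then m1 r else m2 r, K1 ∪ K2 ∪ {b}, ?_, ⟨max C1 C2, ?_⟩, ?_, ?_, ?_⟩
  · exact Measurable.ite measurableSet_Iic h1.meas h2.meas
  · intro r
    show |if r ≤ b then m1 r else m2 r| ≤ _
    split_ifs
    · exact (hC1 r).trans (le_max_left _ _)
    · exact (hC2 r).trans (le_max_right _ _)
  · exact (h1.count.union h2.count).union (countable_singleton b)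
  · intro r hr hK
    have hK1 : r ∉ K1 := fun h => hK (Or.inl (Or.inl h))
    have hK2 : r ∉ K2 := fun h => hK (Or.inl (Or.inr h))
    have hb : r ≠ b := fun h => hK (Or.inr h)
    rcases lt_or_gt_of_ne hb with h | h
    · refine (h1.cont r hr hK1).congr ?_
      filter_upwards [eventually_lt_nhds h] with s hs
      rw [if_pos hs.le]
    · refine (h2.cont r hr hK2).congr ?_
      filter_upwards [eventually_gt_nhds h] with s hs
      rw [if_neg (not_le.mpr hs)]
  · intro r hr ha hc v hv1 hv2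
    show FF D r (if r ≤ b then m1 r else m2 r) v ≤ 0
    split_ifs with h
    · exact h1.main r hr ha h v hv1 hv2
    · exact h2.main r hr (not_le.mp h).le hc v hv1 hv2

/-- one interval with linear interpolation -/
theorem PP.cell {D : Dat} {r0 r1 m0 m1 : ℝ} (h01 : r0 < r1)
    (h : ∀ lam ∈ Icc (0:ℝ) 1, 0 < lin r0 r1 lam → ∀ v : ℝ × ℝ, v.1 ^ 2 + v.2 ^ 2 ≤ 1 →
      0 ≤ v.2 → FF D (lin r0 r1 lam) (lin m0 m1 lam) v ≤ 0) : PP D r0 r1 := by
  have hd : 0 < r1 - r0 := by linarith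
  set T : ℝ → ℝ := fun r => (max r0 (min r r1) - r0) / (r1 - r0) with hT
  have hTc : Continuous T := by
    rw [hT]
    fun_prop
  have hTm : ∀ r, T r ∈ Icc (0:ℝ) 1 := by
    intro r
    constructor
    · exact div_nonneg (by linarith [le_max_left r0 (min r r1)]) hd.le
    · rw [hT]
      simp only
      rw [div_le_one hd]
      have : max r0 (min r r1) ≤ r1 := max_le h01.le (min_le_right _ _)
      linarith
  have hmc : Continuous (fun r => lin m0 m1 (T r)) := by
    unfold lin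
    fun_prop
  refine ⟨fun r => lin m0 m1 (T r), ∅, hmc.measurable, ⟨|m0| + |m1|, ?_⟩, countable_empty,
    fun r _ _ => hmc.continuousAt, ?_⟩
  · intro r
    have ht := hTm r
    show |lin m0 m1 (T r)| ≤ _
    have e : lin m0 m1 (T r) = (1 - T r) * m0 + T r * m1 := by
      unfold lin
      ring
    rw [e]
    refine (abs_add_le _ _).trans ?_
    rw [abs_mul, abs_mul, abs_of_nonneg ht.1, abs_of_nonneg (by linarith [ht.2] : 0 ≤ 1 - T r)]
    have a0 := abs_nonneg m0
    have a1 := abs_nonneg m1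
    nlinarith [ht.1, ht.2]
  · intro r hr ha hb v hv1 hv2
    have e1 : T r = (r - r0) / (r1 - r0) := by
      rw [hT]
      simp only
      rw [min_eq_left hb, max_eq_right ha]
    have e2 : lin r0 r1 (T r) = r := by
      rw [e1]
      unfold lin
      field_simp
      ring
    have := h (T r) (hTm r) (by rw [e2]; exact hr) v hv1 hv2
    rwa [e2] at this

/-- one interval with a continuous weight -/
theorem PP.of_cont {D : Dat} {a b : ℝ} (hab : a ≤ b) {m : ℝ → ℝ}
    (hm : ∀ r ∈ Icc a b, ContinuousAt m r)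
    (h : ∀ r, a ≤ r → r ≤ b → ∀ v : ℝ × ℝ, v.1 ^ 2 + v.2 ^ 2 ≤ 1 → 0 ≤ v.2 →
      FF D r (m r) v ≤ 0) : PP D a b := by
  have hcl : ∀ r, max a (min r b) ∈ Icc a b := fun r =>
    ⟨le_max_left _ _, max_le hab (min_le_right _ _)⟩
  have hcc : Continuous (fun r : ℝ => max a (min r b)) := by fun_prop
  have hmc : Continuous (fun r => m (max a (min r b))) := by
    rw [continuous_iff_continuousAt]
    intro r
    exact ContinuousAt.comp (g := m) (f := fun r => max a (min r b)) (hm _ (hcl r))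
      hcc.continuousAt
  obtain ⟨C, hC⟩ := (isCompact_Icc (a := a) (b := b)).exists_bound_of_continuousOn
    (f := m) (fun r hr => (hm r hr).continuousWithinAt)
  refine ⟨fun r => m (max a (min r b)), ∅, hmc.measurable, ⟨C, ?_⟩, countable_empty,
    fun r _ _ => hmc.continuousAt, ?_⟩
  · intro r
    have := hC _ (hcl r)
    rwa [Real.norm_eq_abs] at this
  · intro r _ h1 h2 v hv1 hv2
    show FF D r (m (max a (min r b))) v ≤ 0
    rw [min_eq_left h2, max_eq_right h1]
    exact h r h1 h2 v hv1 hv2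

/-- **The certificate.** -/
theorem PP.cert {D : Dat} (hD : D.Ok) (h : PP D 0 1) :
    ∃ (β N : ℂ → ℝ) (Kr : Set ℝ), Cert D.ρ β N Kr := by
  obtain ⟨m, Kr, h⟩ := h
  obtain ⟨C, hC⟩ := h.bdd
  refine ⟨D.β, Dat.Npot m, Kr, cert_of_polar D hD m C Kr h.count h.meas hC
    (fun r h0 _ hK => h.cont r h0 hK) ?_⟩
  intro r vr vt hr hr1 hvt hv
  have := h.main r hr hr.le hr1 (vr, vt) hv.le hvt
  unfold FF at this
  simp only at this
  linarith

end Pool.Agent.H81.Shore
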