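import Mathlib
import Pool.Agent.H81.Shore.Glue
import Pool.Agent.H65.Shore.Fan

/-!
From the checked chains to the certificate.
-/

namespace Pool.Agent.H81.Shore

open Set
open Pool.Agent.H44.Shore Pool.Agent.H65.Shore

/-- last row of a chain -/
def endR : ℕ → List Cell → ℕ
  | rn, [] => rn
  | _, c :: cs => endR c.rn cs

theorem PP_of_chainA {D : Dat} (cs : List Cell) : ∀ {rn m : ℕ} {c : Cell},
    ChainA D rn m (c :: cs) → PP D ((rn:ℝ) / 2 ^ 20) ((endR rn (c :: cs) : ℝ) / 2 ^ 20) := by
  have hcell : ∀ {rn m : ℕ} {c : Cell} {cs : List Cell}, ChainA D rn m (c :: cs) →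
      PP D ((rn:ℝ) / 2 ^ 20) ((c.rn:ℝ) / 2 ^ 20) := by
    intro rn m c cs h
    obtain ⟨⟨h1, h2⟩, -⟩ := h
    have h3 : (rn:ℝ) / 2 ^ 20 < (c.rn:ℝ) / 2 ^ 20 := by
      have : (rn:ℝ) < c.rn := by exact_mod_cast h1
      gcongr
    exact PP.cell h3 h2
  induction cs with
  | nil => intro rn m c h; exact hcell h
  | cons d cs ih =>
    intro rn m c h
    exact (hcell h).glue (ih h.2)

/-- the interval of a checked chain -/
theorem PP_of_chain {D : Dat} {K : Cst} (hK : CstOk D K) (ch : ChD)
    (hg : RegOk D (51 / 50) ch.g) (hf : fullFan ch.vs = true) (h : chainAll K ch = true)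
    {a b : ℕ} (ha : ch.rn = a) (hb : (match ch.cells with
      | [] => none
      | c :: cs => some (endR c.rn cs)) = some b) :
    PP D ((a:ℝ) / 2 ^ 20) ((b:ℝ) / 2 ^ 20) := by
  have h1 := chainAll_sound hK hg h
  have h2 := chainA_of hK.hxL0 (by positivity) hf ch.cells h1
  subst ha
  revert hb h2
  cases ch.cells with
  | nil => intro hb; simp at hb
  | cons c cs =>
    intro hb h2
    simp only [Option.some.injEq] at hb
    subst hb
    exact PP_of_chainA cs h2

end Pool.Agent.H81.Shore
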