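import Mathlib
import Pool.Agent.H44.Shore.Ad

/-!
Splitting of the block check in the first variable.
-/

namespace Pool.Agent.H44.Shore.MBC

theorem apx_append {H G M d : ℕ} {P : List (List ℤ)} {zs : ℤ} (ms : List ℕ) :
    ∀ (ns : List ℕ) (ys : ℤ), apx H G M d P zs ys ns = true →
      apx H G M d P zs (ys + ((2 * H * ns.length : ℕ) : ℤ)) ms = true →
      apx H G M d P zs ys (ns ++ ms) = true := by
  intro ns
  induction ns with
  | nil =>
    intro ys _ h
    simpa using h
  | cons n ns ih =>
    intro ys h1 h2
    rw [List.cons_append, apx]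
    rw [apx] at h1
    simp only [seqLL_eq] at h1 ⊢
    cases hb : apz H G M d (shiftxF (Int.add ys (H : ℤ)) P) zs n with
    | false => rw [hb] at h1; exact absurd h1 (by simp)
    | true =>
      rw [hb] at h1
      refine ih _ h1 ?_
      have e : Int.add ys ((Nat.mul 2 H : ℕ) : ℤ) + ((2 * H * ns.length : ℕ) : ℤ) =
          ys + ((2 * H * (n :: ns).length : ℕ) : ℤ) := by
        have : Int.add ys ((Nat.mul 2 H : ℕ) : ℤ) = ys + ((2 * H : ℕ) : ℤ) := rfl
        rw [this, List.length_cons]
        push_cast
        ring
      rw [e]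
      exact h2

/-- the same with the starting point of the second part given -/
theorem apx_split {H G M d : ℕ} {P : List (List ℤ)} {zs ys : ℤ} {ns ms : List ℕ} (k : ℤ)
    (hk : ys + ((2 * H * ns.length : ℕ) : ℤ) = k) (h1 : apx H G M d P zs ys ns = true)
    (h2 : apx H G M d P zs k ms = true) : apx H G M d P zs ys (ns ++ ms) = true := by
  subst hk
  exact apx_append ms ns ys h1 h2

end Pool.Agent.H44.Shore.MBC
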