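import Mathlib
import Pool.Agent.H44.Shore.Cert
import Pool.Agent.H44.Shore.Cert1
import Pool.Agent.H65.Shore.Close

/-!
The certificates are close to their rational approximations.
-/

namespace Pool.Agent.H81.Shore

open Polynomial
open Pool.Agent.H44.Shore Pool.Agent.H44.Shore.MBC Pool.Agent.H65.Shore

/-- difference of the partial derivatives of two certificates -/
theorem bd_diff {D D' : Dat} (h : Deg D) (h' : Deg D') {E : ℕ → ℕ → ℝ}
    (hE : ∀ k m, |cf D k m - cf D' k m| ≤ E k m) (i j : ℕ) (hj : j ≤ 3) {x w y : ℝ}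
    (hx : |x| ≤ y) (hw0 : 0 ≤ w) (hw1 : w ≤ 1) :
    |D.bd i j x w - D'.bd i j x w| ≤ ∑ n ∈ Finset.range 5, ((n + j).descFactorial j : ℝ) *
      ∑ m ∈ Finset.range 8, ((m + i).descFactorial i : ℝ) * E (n + j) (m + i) * y ^ m := by
  rw [bd_sum h i j hj, bd_sum h' i j hj, ← Finset.sum_sub_distrib]
  refine (Finset.abs_sum_le_sum_abs _ _).trans (Finset.sum_le_sum fun n _ => ?_)
  rw [← mul_sub, ← mul_sub, ← Finset.sum_sub_distrib, abs_mul, abs_mul]
  have hE0 : ∀ k m, 0 ≤ E k m := fun k m => (abs_nonneg _).trans (hE k m)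
  have hy : 0 ≤ y := (abs_nonneg x).trans hx
  have h1 : |∑ m ∈ Finset.range 8, (((m + i).descFactorial i : ℝ) * cf D (n + j) (m + i) * x ^ m -
      ((m + i).descFactorial i : ℝ) * cf D' (n + j) (m + i) * x ^ m)| ≤
      ∑ m ∈ Finset.range 8, ((m + i).descFactorial i : ℝ) * E (n + j) (m + i) * y ^ m := by
    refine (Finset.abs_sum_le_sum_abs _ _).trans (Finset.sum_le_sum fun m _ => ?_)
    rw [← sub_mul, ← mul_sub, abs_mul, abs_mul, Nat.abs_cast, abs_pow]
    gcongr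
    · exact mul_nonneg (Nat.cast_nonneg _) (hE0 _ _)
    · exact hE _ _
  have h2 : |w ^ n| ≤ 1 := by
    rw [abs_of_nonneg (pow_nonneg hw0 n)]
    exact pow_le_one₀ hw0 hw1
  have h3 : 0 ≤ ∑ m ∈ Finset.range 8, ((m + i).descFactorial i : ℝ) * E (n + j) (m + i) * y ^ m :=
    Finset.sum_nonneg fun m _ =>
      mul_nonneg (mul_nonneg (Nat.cast_nonneg _) (hE0 _ _)) (pow_nonneg hy _)
  rw [Nat.abs_cast]
  calc |w ^ n| * (((n + j).descFactorial j : ℝ) * _) ≤ 1 * (((n + j).descFactorial j : ℝ) *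
      ∑ m ∈ Finset.range 8, ((m + i).descFactorial i : ℝ) * E (n + j) (m + i) * y ^ m) := by
        gcongr
    _ = _ := one_mul _

theorem cf_big {D : Dat} (h : Deg D) {k m : ℕ} (hm : 8 ≤ m) : cf D k m = 0 := by
  match k with
  | 0 => exact coeff_eq_zero_of_natDegree_lt (p := D.B0) (lt_of_lt_of_le h.d0 hm)
  | 1 => rfl
  | 2 => exact coeff_eq_zero_of_natDegree_lt (p := D.B2) (lt_of_lt_of_le h.d2 hm)
  | 3 => exact coeff_eq_zero_of_natDegree_lt (p := D.B3) (lt_of_lt_of_le h.d3 hm)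
  | 4 => exact coeff_eq_zero_of_natDegree_lt (p := D.B4) (lt_of_lt_of_le h.d4 hm)
  | k + 5 => rfl

/-- the table of the errors -/
def et (e : List (List ℕ)) (k m : ℕ) : ℕ := (e.getD k []).getD m 0

/-- the numerical condition -/
def econd (e : List (List ℕ)) (C : ℕ) : Prop :=
  (∑ n ∈ Finset.range 5, ∑ m ∈ Finset.range 8, (m + 1) * et e n (m + 1) * (21 ^ m * 100 ^ (8 - m)))
      * 123 +
  (∑ n ∈ Finset.range 5, (n + 1) * ∑ m ∈ Finset.range 8, et e (n + 1) m *
      (21 ^ m * 100 ^ (8 - m))) * 880 ≤ 2 ^ (C - 22) * 100 ^ 9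

instance (e : List (List ℕ)) (C : ℕ) : Decidable (econd e C) := by
  unfold econd
  infer_instance

theorem close_of {D : Dat} (hd : Deg D) {L : List (List ℤ)} {C : ℕ} (hC : 22 ≤ C)
    (hrB : 3 / 10 ≤ D.rB) (e : List (List ℕ))
    (h1 : ∀ k < 5, ∀ m < 8, |cf D k m - (gc L k m : ℝ) / 2 ^ C| ≤ (et e k m : ℝ) / 2 ^ C)
    (h2 : L.getD 1 [] = []) (he : econd e C) : Close D L C := by
  intro r vr u c s hr0 hr1 hv hcs hrc
  set D' := Dq D L C with hD'
  have hd' : Deg D' :=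
    ⟨bq_natDegree L C 0, bq_natDegree L C 2, bq_natDegree L C 3, bq_natDegree L C 4⟩
  have hC0 : (0:ℝ) < 2 ^ C := by positivity
  have hcf : ∀ k < 5, ∀ m < 8, cf D' k m = (gc L k m : ℝ) / 2 ^ C := by
    intro k hk m hm
    interval_cases k
    · exact bq_coeff L C 0 hm
    · show (0:ℝ) = _
      unfold gc
      rw [h2]
      simp
    · exact bq_coeff L C 2 hm
    · exact bq_coeff L C 3 hm
    · exact bq_coeff L C 4 hm
  have hE : ∀ k m, |cf D k m - cf D' k m| ≤ (et e k m : ℝ) / 2 ^ C := by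
    intro k m
    by_cases hk : k < 5
    · by_cases hm : m < 8
      · rw [hcf k hk m hm]
        exact h1 k hk m hm
      · rw [cf_big hd (not_lt.mp hm), cf_big hd' (not_lt.mp hm), sub_self, abs_zero]
        positivity
    · have e1 : cf D k m = 0 := by
        obtain ⟨l, rfl⟩ : ∃ l, k = l + 5 := ⟨k - 5, by omega⟩
        rfl
      have e2 : cf D' k m = 0 := by
        obtain ⟨l, rfl⟩ : ∃ l, k = l + 5 := ⟨k - 5, by omega⟩
        rfl
      rw [e1, e2, sub_self, abs_zero]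
      positivity
  have hrB0 : 0 < D.rB := by linarith
  have hW : D'.W r = D.W r := rfl
  have hW0 : 0 ≤ D.W r := le_max_left _ _
  have hW1 : D.W r ≤ 1 := by
    unfold Dat.W
    refine max_le zero_le_one ?_
    have : 0 ≤ r ^ 2 / D.rB ^ 2 := by positivity
    linarith
  have hx : |-(r * c)| ≤ 21 / 100 := by rwa [abs_neg]
  have a1 := bd_diff hd hd' hE 1 0 (by norm_num) hx hW0 hW1
  have a2 := bd_diff hd hd' hE 0 1 (by norm_num) hx hW0 hW1
  rw [← Dat.bx_eq, ← Dat.bx_eq] at a1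
  rw [← Dat.bw_eq, ← Dat.bw_eq] at a2
  set S1 : ℝ := ∑ n ∈ Finset.range 5, ((n + 0).descFactorial 0 : ℝ) *
    ∑ m ∈ Finset.range 8, ((m + 1).descFactorial 1 : ℝ) * ((et e (n + 0) (m + 1) : ℝ) / 2 ^ C) *
      (21 / 100) ^ m with hS1
  set S2 : ℝ := ∑ n ∈ Finset.range 5, ((n + 1).descFactorial 1 : ℝ) *
    ∑ m ∈ Finset.range 8, ((m + 0).descFactorial 0 : ℝ) * ((et e (n + 1) (m + 0) : ℝ) / 2 ^ C) *
      (21 / 100) ^ m with hS2
  -- the first factor
  have hU : |-(vr * c) + u * s + r * c| ≤ 123 / 100 := by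
    have h3 : |-(vr * c) + u * s| ≤ 51 / 50 := by
      apply abs_le_of_sq_le_sq _ (by norm_num)
      nlinarith [sq_nonneg (vr * s + u * c)]
    have h4 := abs_add_le (-(vr * c) + u * s) (r * c)
    linarith
  -- the second factor
  have hQ : |2 * r / D.rB ^ 2 * (vr - r) * (D.bw (-(r * c)) (D.W r) - D'.bw (-(r * c)) (D.W r))| ≤
      44 / 5 * S2 := by
    by_cases hr : r < D.rB
    · rw [abs_mul]
      have h3 : |2 * r / D.rB ^ 2 * (vr - r)| ≤ 44 / 5 := by
        rw [abs_mul, abs_of_nonneg (by positivity : 0 ≤ 2 * r / D.rB ^ 2)]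
        have hvr : |vr| ≤ 51 / 50 := by
          apply abs_le_of_sq_le_sq _ (by norm_num)
          nlinarith [sq_nonneg u]
        have h4 : |vr - r| ≤ 51 / 50 + r := by
          have := abs_sub vr r
          rw [abs_of_nonneg hr0] at this
          linarith
        have h5 : 2 * r / D.rB ^ 2 ≤ 2 / D.rB := by
          rw [div_le_div_iff₀ (by positivity) hrB0]
          nlinarith
        have h6 : 2 / D.rB * (51 / 50 + D.rB) ≤ 44 / 5 := by
          rw [div_mul_eq_mul_div, div_le_iff₀ hrB0]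
          linarith
        calc 2 * r / D.rB ^ 2 * |vr - r| ≤ 2 / D.rB * (51 / 50 + D.rB) := by
              apply mul_le_mul h5 (h4.trans (by linarith)) (abs_nonneg _) (by positivity)
          _ ≤ 44 / 5 := h6
      exact mul_le_mul h3 a2 (abs_nonneg _) (by norm_num)
    · have hW' : D.W r = 0 := by
        unfold Dat.W
        apply max_eq_left
        rw [sub_nonpos, one_le_div (by positivity)]
        have := not_lt.mp hr
        nlinarith
      have e1 : D.bw (-(r * c)) (D.W r) = 0 := by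
        rw [hW']
        unfold Dat.bw
        ring
      have e2 : D'.bw (-(r * c)) (D.W r) = 0 := by
        rw [hW']
        unfold Dat.bw
        ring
      rw [e1, e2, sub_self, mul_zero, abs_zero]
      have : 0 ≤ S2 := (abs_nonneg _).trans a2
      positivity
  have hB : |(D.bx (-(r * c)) (D.W r) - D'.bx (-(r * c)) (D.W r)) * (-(vr * c) + u * s + r * c)| ≤
      S1 * (123 / 100) := by
    rw [abs_mul]
    exact mul_le_mul a1 hU (abs_nonneg _) ((abs_nonneg _).trans a1)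
  have key : D.gs r vr u c s - D'.gs r vr u c s =
      -((D.bx (-(r * c)) (D.W r) - D'.bx (-(r * c)) (D.W r)) * (-(vr * c) + u * s + r * c)) +
      2 * r / D.rB ^ 2 * (vr - r) * (D.bw (-(r * c)) (D.W r) - D'.bw (-(r * c)) (D.W r)) := by
    unfold Dat.gs
    rw [hW]
    have : D'.rB = D.rB := rfl
    rw [this]
    ring
  have hfin : S1 * (123 / 100) + 44 / 5 * S2 ≤ 1 / 2 ^ 22 := by
    have he' : (((∑ n ∈ Finset.range 5, ∑ m ∈ Finset.range 8,
        (m + 1) * et e n (m + 1) * (21 ^ m * 100 ^ (8 - m))) * 123 +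
      (∑ n ∈ Finset.range 5, (n + 1) * ∑ m ∈ Finset.range 8, et e (n + 1) m *
        (21 ^ m * 100 ^ (8 - m))) * 880 : ℕ) : ℝ) ≤ ((2 ^ (C - 22) * 100 ^ 9 : ℕ) : ℝ) := by
      exact_mod_cast he
    push_cast at he'
    have t1 : S1 * (2 ^ C * 100 ^ 8) = ∑ n ∈ Finset.range 5, ∑ m ∈ Finset.range 8,
        ((m:ℝ) + 1) * et e n (m + 1) * (21 ^ m * 100 ^ (8 - m)) := by
      rw [hS1, Finset.sum_mul]
      apply Finset.sum_congr rfl
      intro n _
      rw [Nat.descFactorial_zero, Nat.cast_one, one_mul, Finset.sum_mul]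
      apply Finset.sum_congr rfl
      intro m hm
      have hm' : m < 8 := Finset.mem_range.mp hm
      rw [Nat.descFactorial_one, add_zero]
      have : (100:ℝ) ^ 8 = 100 ^ m * 100 ^ (8 - m) := by
        rw [← pow_add]
        congr 1
        omega
      rw [this, div_pow]
      push_cast
      field_simp
    have t2 : S2 * (2 ^ C * 100 ^ 8) = ∑ n ∈ Finset.range 5, ((n:ℝ) + 1) *
        ∑ m ∈ Finset.range 8, (et e (n + 1) m : ℝ) * (21 ^ m * 100 ^ (8 - m)) := by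
      rw [hS2, Finset.sum_mul]
      apply Finset.sum_congr rfl
      intro n _
      rw [mul_assoc, Nat.descFactorial_one, Finset.sum_mul]
      push_cast
      congr 1
      apply Finset.sum_congr rfl
      intro m hm
      have hm' : m < 8 := Finset.mem_range.mp hm
      rw [Nat.descFactorial_zero, add_zero]
      have : (100:ℝ) ^ 8 = 100 ^ m * 100 ^ (8 - m) := by
        rw [← pow_add]
        congr 1
        omega
      rw [this, div_pow]
      push_cast
      field_simp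
    rw [← t1, ← t2] at he'
    have e3 : (2:ℝ) ^ C = 2 ^ (C - 22) * 2 ^ 22 := by
      rw [← pow_add]
      congr 1
      omega
    have hP : (0:ℝ) < 2 ^ (C - 22) := by positivity
    rw [e3] at he'
    have h7 : (S1 * (123 / 100) + 44 / 5 * S2) * 2 ^ 22 * (2 ^ (C - 22) * 100 ^ 9) ≤
        1 * (2 ^ (C - 22) * 100 ^ 9) := by
      nlinarith
    have h8 := le_of_mul_le_mul_right h7 (by positivity)
    rw [le_div_iff₀ (by positivity)]
    exact h8
  rw [key]
  have h9 := abs_add_le (-((D.bx (-(r * c)) (D.W r) - D'.bx (-(r * c)) (D.W r)) *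
    (-(vr * c) + u * s + r * c)))
    (2 * r / D.rB ^ 2 * (vr - r) * (D.bw (-(r * c)) (D.W r) - D'.bw (-(r * c)) (D.W r)))
  rw [abs_neg] at h9
  linarith

/-- coefficient errors of a row -/
theorem row_err (R : Raw) (hN : 0 < R.N) (hQ : 0 < R.Q) {ρ κ : ℝ} (hρ : 1 < ρ) {A' C : ℕ}
    (hAC : A' ≤ C) {X1 K1 : ℤ} {dX dK : ℕ} (hX : |2 ^ A' * (1 / ρ) - X1| ≤ dX)
    (hK : |2 ^ A' * κ - K1| ≤ dK) (t : List ℤ) (l : List ℕ)
    (hl : ∀ m < 8, dX * (R.pn A' K1 t m).natAbs * 2 ^ C +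
      (1 + 2 * dK * 2 ^ (C - A')) * (R.N * R.Q * 2 ^ (2 * A')) ≤
        l.getD m 0 * (R.N * R.Q * 2 ^ (2 * A'))) {m : ℕ} (hm : m < 8) :
    |(R.bk ρ κ t).coeff m - (R.an A' C X1 K1 t m : ℝ) / 2 ^ C| ≤ (l.getD m 0 : ℝ) / 2 ^ C := by
  refine Raw.coeff_err R hN hQ hρ hX hK t m le_rfl ?_
  have hNr : (0:ℝ) < R.N := by exact_mod_cast hN
  have hQr : (0:ℝ) < R.Q := by exact_mod_cast hQ
  have h1 := hl m hm
  have h2 : ((dX * (R.pn A' K1 t m).natAbs * 2 ^ C +
      (1 + 2 * dK * 2 ^ (C - A')) * (R.N * R.Q * 2 ^ (2 * A')) : ℕ) : ℝ) ≤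
        ((l.getD m 0 * (R.N * R.Q * 2 ^ (2 * A')) : ℕ) : ℝ) := by exact_mod_cast h1
  push_cast at h2
  set P : ℝ := (((R.pn A' K1 t m).natAbs : ℕ) : ℝ) with hP
  have hM : (0:ℝ) < R.N * R.Q * 2 ^ (2 * A') := by positivity
  have hC : (0:ℝ) < 2 ^ C := by positivity
  have e1 : (2:ℝ) ^ C = 2 ^ (C - A') * 2 ^ A' := by
    rw [← pow_add]
    congr 1
    omega
  have e2 : 2 * ((dK:ℝ) / 2 ^ A') = 2 * dK * 2 ^ (C - A') / 2 ^ C := by
    rw [e1]
    field_simp
  rw [e2, le_div_iff₀ hC]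
  have e3 : (1 / 2 ^ C + dX * P / (R.N * R.Q * 2 ^ (2 * A')) + 2 * dK * 2 ^ (C - A') / 2 ^ C) *
      2 ^ C = 1 + dX * P * 2 ^ C / (R.N * R.Q * 2 ^ (2 * A')) + 2 * dK * 2 ^ (C - A') := by
    generalize (R.N:ℝ) * R.Q * 2 ^ (2 * A') = M at hM
    field_simp
  rw [e3]
  have h3 : dX * P * 2 ^ C / (R.N * R.Q * 2 ^ (2 * A')) + (1 + 2 * dK * 2 ^ (C - A')) ≤
      (l.getD m 0 : ℝ) := by
    rw [div_add' _ _ _ hM.ne', div_le_iff₀ hM]
    exact h2
  linarith

/-! ### The exact certificate -/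

/-- error table of the exact certificate -/
def eX : List (List ℕ) :=
  [[249399499, 287151556, 567322216, 2142044161, 11141120001, 245760001, 245760001, 245760001],
   [],
   [7518855, 509919561, 1819531675, 32323403777, 149651456001, 1, 1, 1],
   [23231570, 876113758, 1342141237, 75608162305, 320077824001, 1, 1, 1],
   [15574632, 422521735, 188658485, 46632730625, 187449344001, 1, 1, 1]]

theorem rowX {κ : ℝ} {α ω : ℝ} (h : Pool.Agent.H4.Shore.Consts α ω) {K1 : ℤ} {dK : ℕ}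
    (hK : |2 ^ 48 * κ - (K1 : ℝ)| ≤ (dK : ℝ)) (t : List ℤ) (l : List ℕ)
    (hl : ∀ m < 8, 400 * (RX.pn 48 K1 t m).natAbs * 2 ^ 60 +
      (1 + 2 * dK * 2 ^ (60 - 48)) * (RX.N * RX.Q * 2 ^ (2 * 48)) ≤
        l.getD m 0 * (RX.N * RX.Q * 2 ^ (2 * 48))) {m : ℕ} (hm : m < 8) :
    |(RX.bk (1 / (Real.sin α * Real.cos ω)) κ t).coeff m -
      ((mk (RX.an 48 60 20380292644535 K1 t) 8 0).getD m 0 : ℝ) / 2 ^ 60| ≤
      (l.getD m 0 : ℝ) / 2 ^ 60 := by
  rw [Raw.mk_getD _ _ _ _ _ hm, zero_add]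
  exact row_err RX (by decide) (by decide) (hρX h) (by norm_num) (hXX h) hK t l hl hm

open Pool.Agent.H4.Shore in
/-- **The exact certificate is close to its rational approximation.** -/
theorem closeX {α ω : ℝ} (h : Consts α ω) : Close (DX α ω) LX 60 := by
  refine close_of (apxX h).deg (by norm_num) ?_ eX ?_ rfl (by decide +kernel)
  · show 3 / 10 ≤ RX.rB
    rw [RX_rB]
    norm_num
  · intro k hk m hm
    have hK0 : |2 ^ 48 * (0:ℝ) - ((0:ℤ) : ℝ)| ≤ ((0:ℕ) : ℝ) := by simp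
    interval_cases k
    · exact rowX h (hKX h) RX.t0 _ (by decide +kernel) hm
    · show |(0:ℝ) - ((([] : List ℤ).getD m 0 : ℤ) : ℝ) / 2 ^ 60| ≤ _
      simp [et, eX]
    · exact rowX h hK0 RX.t2 _ (by decide +kernel) hm
    · exact rowX h hK0 RX.t3 _ (by decide +kernel) hm
    · exact rowX h hK0 RX.t4 _ (by decide +kernel) hm

/-! ### The stage one certificate -/

/-- error table of the stage one certificate -/
def e1 : List (List ℕ) :=
  [[85721, 174081, 266241, 81921, 81921, 81921, 81921, 81921],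
   [],
   [25118, 226265, 507905, 1, 1, 1, 1, 1],
   [20172, 174327, 372737, 1, 1, 1, 1, 1],
   [1, 1, 1, 1, 1, 1, 1, 1]]

theorem row1 {κ : ℝ} {K1 : ℤ} {dK : ℕ}
    (hK : |2 ^ 48 * κ - (K1 : ℝ)| ≤ (dK : ℝ)) (t : List ℤ) (l : List ℕ)
    (hl : ∀ m < 8, 1 * (R1.pn 48 K1 t m).natAbs * 2 ^ 60 +
      (1 + 2 * dK * 2 ^ (60 - 48)) * (R1.N * R1.Q * 2 ^ (2 * 48)) ≤
        l.getD m 0 * (R1.N * R1.Q * 2 ^ (2 * 48))) {m : ℕ} (hm : m < 8) :
    |(R1.bk (27 / 2) κ t).coeff m -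
      ((mk (R1.an 48 60 20849998274863 K1 t) 8 0).getD m 0 : ℝ) / 2 ^ 60| ≤
      (l.getD m 0 : ℝ) / 2 ^ 60 := by
  rw [Raw.mk_getD _ _ _ _ _ hm, zero_add]
  exact row_err R1 (by decide) (by decide) (by norm_num) (by norm_num) hX1 hK t l hl hm

/-- **The stage one certificate is close to its rational approximation.** -/
theorem close1 : Close D1 L1 60 := by
  refine close_of apx1.deg (by norm_num) ?_ e1 ?_ rfl (by decide +kernel)
  · show 3 / 10 ≤ R1.rB
    rw [R1_rB]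
    norm_num
  · intro k hk m hm
    have hK0 : |2 ^ 48 * (0:ℝ) - ((0:ℤ) : ℝ)| ≤ ((0:ℕ) : ℝ) := by simp
    interval_cases k
    · exact row1 kap_bounds1 R1.t0 _ (by decide +kernel) hm
    · show |(0:ℝ) - ((([] : List ℤ).getD m 0 : ℤ) : ℝ) / 2 ^ 60| ≤ _
      simp [et, e1]
    · exact row1 hK0 R1.t2 _ (by decide +kernel) hm
    · exact row1 hK0 R1.t3 _ (by decide +kernel) hm
    · exact row1 hK0 R1.t4 _ (by decide +kernel) hm

end Pool.Agent.H81.Shore
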