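import Mathlib
import Pool.Agent.H81.Shore.CloseC
import Pool.Agent.H65.Shore.Data.K1
import Pool.Agent.H65.Shore.Data.KX

/-!
The constants of the engine belong to the certificates.
-/

namespace Pool.Agent.H81.Shore

open Pool.Agent.H44.Shore Pool.Agent.H65.Shore

theorem K1_Lm : K1.Lm = L1 := by decide +kernel

theorem KX_Lm : KX.Lm = LX := by decide +kernel

/-- the constants of stage one -/
theorem cstOk1 : CstOk D1 K1 where
  l5 := by decide
  l8 := by decide
  l1 := rfl
  close := by
    have h := close1
    rw [← K1_Lm] at h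
    exact h
  hod := by decide
  hon := by decide
  ho := by decide +kernel
  hrB2 := by
    have e : D1.rB = 314573 / 1048576 := R1_rB
    rw [e]
    norm_num [K1]
  hrB := by
    have e : D1.rB = 314573 / 1048576 := R1_rB
    rw [e]
    norm_num
  hN := by decide
  hxL := by
    have e : D1.xL = 21 / 100 := R1_xL
    rw [e]
    norm_num [K1]
  hxL0 := by
    have e : D1.xL = 21 / 100 := R1_xL
    rw [e]
    norm_num
  hxL1 := by
    have e : D1.xL = 21 / 100 := R1_xL
    rw [e]
  hρ := by
    show (0:ℝ) < 27 / 2
    norm_num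
  hX1 := by
    show (1:ℝ) / (27 / 2) ≤ _
    norm_num [K1]

open Pool.Agent.H4.Shore in
/-- the constants of the exact certificate -/
theorem cstOkX {α ω : ℝ} (h : Consts α ω) : CstOk (DX α ω) KX where
  l5 := by decide
  l8 := by decide
  l1 := rfl
  close := by
    have h := closeX h
    rw [← KX_Lm] at h
    exact h
  hod := by decide
  hon := by decide
  ho := by decide +kernel
  hrB2 := by
    have e : (DX α ω).rB = 325059 / 1048576 := RX_rB
    rw [e]
    norm_num [KX]
  hrB := by
    have e : (DX α ω).rB = 325059 / 1048576 := RX_rB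
    rw [e]
    norm_num
  hN := by decide
  hxL := by
    have e : (DX α ω).xL = 196 / 1000 := RX_xL
    rw [e]
    norm_num [KX]
  hxL0 := by
    have e : (DX α ω).xL = 196 / 1000 := RX_xL
    rw [e]
    norm_num
  hxL1 := by
    have e : (DX α ω).xL = 196 / 1000 := RX_xL
    rw [e]
    norm_num
  hρ := by
    have := hρX h
    show (0:ℝ) < 1 / (Real.sin α * Real.cos ω)
    linarith
  hX1 := by
    show (1:ℝ) / (1 / (Real.sin α * Real.cos ω)) ≤ _
    rw [inv_rho]
    have h1 := (x1_bounds h).2
    have h2 : (0.072405344457316:ℝ) ≤ (KX.X1:ℝ) / 2 ^ 60 := by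
      norm_num [KX]
    exact h1.trans h2

end Pool.Agent.H81.Shore
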