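import Mathlib
import Pool.Agent.H81.Shore.CstK
import Pool.Agent.H81.Shore.GlueC
import Pool.Agent.H65.Shore.Data.CA0
import Pool.Agent.H65.Shore.Data.CA1
import Pool.Agent.H65.Shore.Data.CA2
import Pool.Agent.H65.Shore.Data.CA3

/-!
Stage one: the assembly.
-/

namespace Pool.Agent.H81.Shore

open Pool.Agent.H44.Shore Pool.Agent.H65.Shore

/-- the regions of stage one are fine -/
structure Regs1 : Prop where
  r0 : RegOk D1 (51 / 50) ca0.g
  r1 : RegOk D1 (51 / 50) ca1.g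
  r2 : RegOk D1 (51 / 50) ca2.g
  r3 : RegOk D1 (51 / 50) ca3.g
  r4 : RegOk D1 (51 / 50) ca4.g
  r5 : RegOk D1 (51 / 50) ca5.g
  r6 : RegOk D1 (51 / 50) ca6.g
  r7 : RegOk D1 (51 / 50) ca7.g
  r8 : RegOk D1 (51 / 50) ca8.g

theorem pp1 (h : Regs1) : PP D1 0 1 := by
  have p0 := PP_of_chain cstOk1 ca0 h.r0 ca0_fan ca0_ok (a := 0) (b := 41943) rfl rfl
  have p1 := PP_of_chain cstOk1 ca1 h.r1 ca1_fan ca1_ok (a := 41943) (b := 80216) rfl rfl
  have p2_0 := PP_of_chain cstOk1 (ca2.part 0 27) h.r2 ca2_fan ca2_ok0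
    (a := 80216) (b := 82918) rfl rfl
  have p2_1 := PP_of_chain cstOk1 (ca2.part 27 28) h.r2 ca2_fan ca2_ok1
    (a := 82918) (b := 87101) rfl rfl
  have p2_2 := PP_of_chain cstOk1 (ca2.part 55 27) h.r2 ca2_fan ca2_ok2
    (a := 87101) (b := 92713) rfl rfl
  have p2_3 := PP_of_chain cstOk1 (ca2.part 82 27) h.r2 ca2_fan ca2_ok3
    (a := 92713) (b := 100347) rfl rfl
  have p2_4 := PP_of_chain cstOk1 (ca2.part 109 28) h.r2 ca2_fan ca2_ok4
    (a := 100347) (b := 111210) rfl rfl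
  have p2_5 := PP_of_chain cstOk1 (ca2.part 137 27) h.r2 ca2_fan ca2_ok5
    (a := 111210) (b := 125829) rfl rfl
  have p2 := p2_0.glue (p2_1.glue (p2_2.glue (p2_3.glue (p2_4.glue p2_5))))
  have p3_0 := PP_of_chain cstOk1 (ca3.part 0 24) h.r3 ca3_fan ca3_ok0
    (a := 125829) (b := 143221) rfl rfl
  have p3_1 := PP_of_chain cstOk1 (ca3.part 24 23) h.r3 ca3_fan ca3_ok1
    (a := 143221) (b := 167772) rfl rfl
  have p3 := p3_0.glue p3_1
  have p4 := PP_of_chain cstOk1 ca4 h.r4 ca4_fan ca4_ok (a := 167772) (b := 209715) rfl rfl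
  have p5_0 := PP_of_chain cstOk1 (ca5.part 0 17) h.r5 ca5_fan ca5_ok0
    (a := 209715) (b := 228701) rfl rfl
  have p5_1 := PP_of_chain cstOk1 (ca5.part 17 17) h.r5 ca5_fan ca5_ok1
    (a := 228701) (b := 251658) rfl rfl
  have p5 := p5_0.glue p5_1
  have p6_0 := PP_of_chain cstOk1 (ca6.part 0 24) h.r6 ca6_fan ca6_ok0
    (a := 251658) (b := 279001) rfl rfl
  have p6_1 := PP_of_chain cstOk1 (ca6.part 24 25) h.r6 ca6_fan ca6_ok1
    (a := 279001) (b := 314573) rfl rfl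
  have p6 := p6_0.glue p6_1
  have p7 := PP_of_chain cstOk1 ca7 h.r7 ca7_fan ca7_ok (a := 314573) (b := 524288) rfl rfl
  have p8 := PP_of_chain cstOk1 ca8 h.r8 ca8_fan ca8_ok (a := 524288) (b := 1048576) rfl rfl
  have p := p0.glue (p1.glue (p2.glue (p3.glue (p4.glue (p5.glue (p6.glue (p7.glue p8)))))))
  refine p.mono ?_ ?_
  · norm_num
  · norm_num

end Pool.Agent.H81.Shore
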