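import Mathlib
import Pool.Agent.H81.Shore.CstK
import Pool.Agent.H81.Shore.GlueC
import Pool.Agent.H65.Shore.Data.CB0
import Pool.Agent.H65.Shore.Data.CB1
import Pool.Agent.H65.Shore.Data.CB2
import Pool.Agent.H65.Shore.Data.CB3
import Pool.Agent.H65.Shore.Data.CB4
import Pool.Agent.H65.Shore.Data.CB5
import Pool.Agent.H65.Shore.Data.CB6
import Pool.Agent.H65.Shore.Data.CB7
import Pool.Agent.H65.Shore.Data.CB8
import Pool.Agent.H65.Shore.Data.CB9
import Pool.Agent.H65.Shore.Data.CB10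
import Pool.Agent.H65.Shore.Data.CB11

/-!
The exact certificate outside the ring: the assembly.
-/

namespace Pool.Agent.H81.Shore

open Pool.Agent.H44.Shore Pool.Agent.H65.Shore

/-- the regions of the exact certificate are fine -/
structure RegsX (D : Dat) : Prop where
  r0 : RegOk D (51 / 50) cb0.g
  r1 : RegOk D (51 / 50) cb1.g
  r2 : RegOk D (51 / 50) cb2.g
  r3 : RegOk D (51 / 50) cb3.g
  r4 : RegOk D (51 / 50) cb4.g
  r5 : RegOk D (51 / 50) cb5.g
  r6 : RegOk D (51 / 50) cb6.g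
  r7 : RegOk D (51 / 50) cb7.g
  r8 : RegOk D (51 / 50) cb8.g
  r9 : RegOk D (51 / 50) cb9.g
  r10 : RegOk D (51 / 50) cb10.g
  r11 : RegOk D (51 / 50) cb11.g
  r12 : RegOk D (51 / 50) cb12.g
  r13 : RegOk D (51 / 50) cb13.g
  r14 : RegOk D (51 / 50) cb14.g
  r15 : RegOk D (51 / 50) cb15.g
  r16 : RegOk D (51 / 50) cb16.g
  r17 : RegOk D (51 / 50) cb17.g
  r18 : RegOk D (51 / 50) cb18.g
  r19 : RegOk D (51 / 50) cb19.g
  r20 : RegOk D (51 / 50) cb20.g
  r21 : RegOk D (51 / 50) cb21.g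
  r22 : RegOk D (51 / 50) cb22.g
  r23 : RegOk D (51 / 50) cb23.g
  r24 : RegOk D (51 / 50) cb24.g
  r25 : RegOk D (51 / 50) cb25.g
  r26 : RegOk D (51 / 50) cb26.g
  r27 : RegOk D (51 / 50) cb27.g
  r28 : RegOk D (51 / 50) cb28.g
  r29 : RegOk D (51 / 50) cb29.g
  r30 : RegOk D (51 / 50) cb30.g
  r31 : RegOk D (51 / 50) cb31.g
  r32 : RegOk D (51 / 50) cb32.g

theorem ppIn {D : Dat} (hK : CstOk D KX) (h : RegsX D) :
    PP D ((0:ℕ) / 2 ^ 20) ((211634:ℕ) / 2 ^ 20) := by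
  have p0_0 := PP_of_chain hK (cb0.part 0 6) h.r0 cb0_fan cb0_ok0
    (a := 0) (b := 2304) rfl rfl
  have p0_1 := PP_of_chain hK (cb0.part 6 6) h.r0 cb0_fan cb0_ok1
    (a := 2304) (b := 4628) rfl rfl
  have p0_2 := PP_of_chain hK (cb0.part 12 6) h.r0 cb0_fan cb0_ok2
    (a := 4628) (b := 7044) rfl rfl
  have p0_3 := PP_of_chain hK (cb0.part 18 6) h.r0 cb0_fan cb0_ok3
    (a := 7044) (b := 9485) rfl rfl
  have p0_4 := PP_of_chain hK (cb0.part 24 7) h.r0 cb0_fan cb0_ok4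
    (a := 9485) (b := 12180) rfl rfl
  have p0_5 := PP_of_chain hK (cb0.part 31 6) h.r0 cb0_fan cb0_ok5
    (a := 12180) (b := 15024) rfl rfl
  have p0_6 := PP_of_chain hK (cb0.part 37 6) h.r0 cb0_fan cb0_ok6
    (a := 15024) (b := 18066) rfl rfl
  have p0_7 := PP_of_chain hK (cb0.part 43 6) h.r0 cb0_fan cb0_ok7
    (a := 18066) (b := 20972) rfl rfl
  have p0 := p0_0.glue (p0_1.glue (p0_2.glue (p0_3.glue (p0_4.glue (p0_5.glue (p0_6.glue (p0_7)))))))
  have p1_0 := PP_of_chain hK (cb1.part 0 16) h.r1 cb1_fan cb1_ok0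
    (a := 20972) (b := 31030) rfl rfl
  have p1_1 := PP_of_chain hK (cb1.part 16 15) h.r1 cb1_fan cb1_ok1
    (a := 31030) (b := 41943) rfl rfl
  have p1 := p1_0.glue (p1_1)
  have p2_0 := PP_of_chain hK (cb2.part 0 9) h.r2 cb2_fan cb2_ok0
    (a := 41943) (b := 47804) rfl rfl
  have p2_1 := PP_of_chain hK (cb2.part 9 9) h.r2 cb2_fan cb2_ok1
    (a := 47804) (b := 53082) rfl rfl
  have p2_2 := PP_of_chain hK (cb2.part 18 9) h.r2 cb2_fan cb2_ok2
    (a := 53082) (b := 57672) rfl rfl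
  have p2 := p2_0.glue (p2_1.glue (p2_2))
  have p3_0 := PP_of_chain hK (cb3.part 0 10) h.r3 cb3_fan cb3_ok0
    (a := 57672) (b := 62242) rfl rfl
  have p3_1 := PP_of_chain hK (cb3.part 10 9) h.r3 cb3_fan cb3_ok1
    (a := 62242) (b := 65791) rfl rfl
  have p3_2 := PP_of_chain hK (cb3.part 19 10) h.r3 cb3_fan cb3_ok2
    (a := 65791) (b := 69206) rfl rfl
  have p3 := p3_0.glue (p3_1.glue (p3_2))
  have p4_0 := PP_of_chain hK (cb4.part 0 10) h.r4 cb4_fan cb4_ok0
    (a := 69206) (b := 72537) rfl rfl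
  have p4_1 := PP_of_chain hK (cb4.part 10 10) h.r4 cb4_fan cb4_ok1
    (a := 72537) (b := 75926) rfl rfl
  have p4 := p4_0.glue (p4_1)
  have p5_0 := PP_of_chain hK (cb5.part 0 16) h.r5 cb5_fan cb5_ok0
    (a := 75926) (b := 76209) rfl rfl
  have p5_1 := PP_of_chain hK (cb5.part 16 16) h.r5 cb5_fan cb5_ok1
    (a := 76209) (b := 76989) rfl rfl
  have p5_2 := PP_of_chain hK (cb5.part 32 17) h.r5 cb5_fan cb5_ok2
    (a := 76989) (b := 78391) rfl rfl
  have p5_3 := PP_of_chain hK (cb5.part 49 16) h.r5 cb5_fan cb5_ok3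
    (a := 78391) (b := 80216) rfl rfl
  have p5 := p5_0.glue (p5_1.glue (p5_2.glue (p5_3)))
  have p6_0 := PP_of_chain hK (cb6.part 0 31) h.r6 cb6_fan cb6_ok0
    (a := 80216) (b := 85667) rfl rfl
  have p6_1 := PP_of_chain hK (cb6.part 31 31) h.r6 cb6_fan cb6_ok1
    (a := 85667) (b := 94372) rfl rfl
  have p6 := p6_0.glue (p6_1)
  have p7 := PP_of_chain hK cb7 h.r7 cb7_fan cb7_ok (a := 94372) (b := 115343) rfl rfl
  have p8 := PP_of_chain hK cb8 h.r8 cb8_fan cb8_ok (a := 115343) (b := 136315) rfl rfl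
  have p9_0 := PP_of_chain hK (cb9.part 0 12) h.r9 cb9_fan cb9_ok0
    (a := 136315) (b := 143113) rfl rfl
  have p9_1 := PP_of_chain hK (cb9.part 12 11) h.r9 cb9_fan cb9_ok1
    (a := 143113) (b := 146801) rfl rfl
  have p9 := p9_0.glue (p9_1)
  have p10_0 := PP_of_chain hK (cb10.part 0 7) h.r10 cb10_fan cb10_ok0
    (a := 146801) (b := 149876) rfl rfl
  have p10_1 := PP_of_chain hK (cb10.part 7 7) h.r10 cb10_fan cb10_ok1
    (a := 149876) (b := 153549) rfl rfl
  have p10_2 := PP_of_chain hK (cb10.part 14 7) h.r10 cb10_fan cb10_ok2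
    (a := 153549) (b := 157286) rfl rfl
  have p10 := p10_0.glue (p10_1.glue (p10_2))
  have p11_0 := PP_of_chain hK (cb11.part 0 8) h.r11 cb11_fan cb11_ok0
    (a := 157286) (b := 159750) rfl rfl
  have p11_1 := PP_of_chain hK (cb11.part 8 9) h.r11 cb11_fan cb11_ok1
    (a := 159750) (b := 162174) rfl rfl
  have p11_2 := PP_of_chain hK (cb11.part 17 9) h.r11 cb11_fan cb11_ok2
    (a := 162174) (b := 165247) rfl rfl
  have p11_3 := PP_of_chain hK (cb11.part 26 8) h.r11 cb11_fan cb11_ok3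
    (a := 165247) (b := 167772) rfl rfl
  have p11 := p11_0.glue (p11_1.glue (p11_2.glue (p11_3)))
  have p12_0 := PP_of_chain hK (cb12.part 0 15) h.r12 cb12_fan cb12_ok0
    (a := 167772) (b := 172691) rfl rfl
  have p12_1 := PP_of_chain hK (cb12.part 15 15) h.r12 cb12_fan cb12_ok1
    (a := 172691) (b := 178258) rfl rfl
  have p12 := p12_0.glue (p12_1)
  have p13_0 := PP_of_chain hK (cb13.part 0 11) h.r13 cb13_fan cb13_ok0
    (a := 178258) (b := 184052) rfl rfl
  have p13_1 := PP_of_chain hK (cb13.part 11 11) h.r13 cb13_fan cb13_ok1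
    (a := 184052) (b := 188744) rfl rfl
  have p13 := p13_0.glue (p13_1)
  have p14_0 := PP_of_chain hK (cb14.part 0 12) h.r14 cb14_fan cb14_ok0
    (a := 188744) (b := 194115) rfl rfl
  have p14_1 := PP_of_chain hK (cb14.part 12 12) h.r14 cb14_fan cb14_ok1
    (a := 194115) (b := 199229) rfl rfl
  have p14 := p14_0.glue (p14_1)
  have p15_0 := PP_of_chain hK (cb15.part 0 9) h.r15 cb15_fan cb15_ok0
    (a := 199229) (b := 202560) rfl rfl
  have p15_1 := PP_of_chain hK (cb15.part 9 9) h.r15 cb15_fan cb15_ok1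
    (a := 202560) (b := 205521) rfl rfl
  have p15 := p15_0.glue (p15_1)
  have p16_0 := PP_of_chain hK (cb16.part 0 5) h.r16 cb16_fan cb16_ok0
    (a := 205521) (b := 206765) rfl rfl
  have p16_1 := PP_of_chain hK (cb16.part 5 4) h.r16 cb16_fan cb16_ok1
    (a := 206765) (b := 207772) rfl rfl
  have p16_2 := PP_of_chain hK (cb16.part 9 5) h.r16 cb16_fan cb16_ok2
    (a := 207772) (b := 208667) rfl rfl
  have p16 := p16_0.glue (p16_1.glue (p16_2))
  have p17_0 := PP_of_chain hK (cb17.part 0 5) h.r17 cb17_fan cb17_ok0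
    (a := 208667) (b := 209825) rfl rfl
  have p17_1 := PP_of_chain hK (cb17.part 5 6) h.r17 cb17_fan cb17_ok1
    (a := 209825) (b := 210873) rfl rfl
  have p17_2 := PP_of_chain hK (cb17.part 11 5) h.r17 cb17_fan cb17_ok2
    (a := 210873) (b := 211634) rfl rfl
  have p17 := p17_0.glue (p17_1.glue (p17_2))
  exact p0.glue (p1.glue (p2.glue (p3.glue (p4.glue (p5.glue (p6.glue (p7.glue (p8.glue (p9.glue (p10.glue (p11.glue (p12.glue (p13.glue (p14.glue (p15.glue (p16.glue p17))))))))))))))))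

theorem ppOut {D : Dat} (hK : CstOk D KX) (h : RegsX D) :
    PP D ((224217:ℕ) / 2 ^ 20) ((1048576:ℕ) / 2 ^ 20) := by
  have p18_0 := PP_of_chain hK (cb18.part 0 6) h.r18 cb18_fan cb18_ok0
    (a := 224217) (b := 225380) rfl rfl
  have p18_1 := PP_of_chain hK (cb18.part 6 5) h.r18 cb18_fan cb18_ok1
    (a := 225380) (b := 226492) rfl rfl
  have p18 := p18_0.glue (p18_1)
  have p19_0 := PP_of_chain hK (cb19.part 0 5) h.r19 cb19_fan cb19_ok0
    (a := 226492) (b := 227314) rfl rfl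
  have p19_1 := PP_of_chain hK (cb19.part 5 5) h.r19 cb19_fan cb19_ok1
    (a := 227314) (b := 228177) rfl rfl
  have p19_2 := PP_of_chain hK (cb19.part 10 6) h.r19 cb19_fan cb19_ok2
    (a := 228177) (b := 229478) rfl rfl
  have p19_3 := PP_of_chain hK (cb19.part 16 5) h.r19 cb19_fan cb19_ok3
    (a := 229478) (b := 230687) rfl rfl
  have p19 := p19_0.glue (p19_1.glue (p19_2.glue (p19_3)))
  have p20_0 := PP_of_chain hK (cb20.part 0 6) h.r20 cb20_fan cb20_ok0
    (a := 230687) (b := 233123) rfl rfl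
  have p20_1 := PP_of_chain hK (cb20.part 6 7) h.r20 cb20_fan cb20_ok1
    (a := 233123) (b := 235930) rfl rfl
  have p20 := p20_0.glue (p20_1)
  have p21_0 := PP_of_chain hK (cb21.part 0 7) h.r21 cb21_fan cb21_ok0
    (a := 235930) (b := 238477) rfl rfl
  have p21_1 := PP_of_chain hK (cb21.part 7 7) h.r21 cb21_fan cb21_ok1
    (a := 238477) (b := 241172) rfl rfl
  have p21 := p21_0.glue (p21_1)
  have p22_0 := PP_of_chain hK (cb22.part 0 6) h.r22 cb22_fan cb22_ok0
    (a := 241172) (b := 243708) rfl rfl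
  have p22_1 := PP_of_chain hK (cb22.part 6 6) h.r22 cb22_fan cb22_ok1
    (a := 243708) (b := 246415) rfl rfl
  have p22 := p22_0.glue (p22_1)
  have p23_0 := PP_of_chain hK (cb23.part 0 8) h.r23 cb23_fan cb23_ok0
    (a := 246415) (b := 249168) rfl rfl
  have p23_1 := PP_of_chain hK (cb23.part 8 9) h.r23 cb23_fan cb23_ok1
    (a := 249168) (b := 251658) rfl rfl
  have p23 := p23_0.glue (p23_1)
  have p24_0 := PP_of_chain hK (cb24.part 0 12) h.r24 cb24_fan cb24_ok0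
    (a := 251658) (b := 257435) rfl rfl
  have p24_1 := PP_of_chain hK (cb24.part 12 11) h.r24 cb24_fan cb24_ok1
    (a := 257435) (b := 262144) rfl rfl
  have p24 := p24_0.glue (p24_1)
  have p25 := PP_of_chain hK cb25 h.r25 cb25_fan cb25_ok (a := 262144) (b := 272630) rfl rfl
  have p26 := PP_of_chain hK cb26 h.r26 cb26_fan cb26_ok (a := 272630) (b := 283116) rfl rfl
  have p27 := PP_of_chain hK cb27 h.r27 cb27_fan cb27_ok (a := 283116) (b := 293601) rfl rfl
  have p28 := PP_of_chain hK cb28 h.r28 cb28_fan cb28_ok (a := 293601) (b := 304087) rfl rfl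
  have p29 := PP_of_chain hK cb29 h.r29 cb29_fan cb29_ok (a := 304087) (b := 325059) rfl rfl
  have p30 := PP_of_chain hK cb30 h.r30 cb30_fan cb30_ok (a := 325059) (b := 419430) rfl rfl
  have p31 := PP_of_chain hK cb31 h.r31 cb31_fan cb31_ok (a := 419430) (b := 629146) rfl rfl
  have p32 := PP_of_chain hK cb32 h.r32 cb32_fan cb32_ok (a := 629146) (b := 1048576) rfl rfl
  exact p18.glue (p19.glue (p20.glue (p21.glue (p22.glue (p23.glue (p24.glue (p25.glue (p26.glue (p27.glue (p28.glue (p29.glue (p30.glue (p31.glue p32)))))))))))))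

/-- **The exact certificate, given the ring.** -/
theorem ppX {D : Dat} (hK : CstOk D KX) (h : RegsX D)
    (hr : PP D ((211634:ℕ) / 2 ^ 20) ((224217:ℕ) / 2 ^ 20)) : PP D 0 1 := by
  refine ((ppIn hK h).glue (hr.glue (ppOut hK h))).mono ?_ ?_
  · norm_num
  · norm_num

end Pool.Agent.H81.Shore
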