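import Mathlib

/-!
Nonnegativity of a bivariate integer polynomial on the square `[-1,1]^2`, by subdivision.
A polynomial is a list of rows, the row with index `i` being the coefficient list (in `v`) of `u^i`.
-/

namespace Pool.Agent.H81.Shore

/-- value of a coefficient list -/
def ev (p : List Int) (t : ℝ) : ℝ :=
  match p with
  | [] => 0
  | a :: q => (a : ℝ) + t * ev q t

/-- value of a list of rows -/
def ev2 (M : List (List Int)) (u v : ℝ) : ℝ :=
  match M with
  | [] => 0
  | r :: N => ev r v + u * ev2 N u v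

/-- sum of lists -/
def ladd : List Int → List Int → List Int
  | [], q => q
  | a :: p, [] => a :: p
  | a :: p, b :: q => (a + b) :: ladd p q

/-- multiple of a list -/
def lmul (c : Int) : List Int → List Int
  | [] => []
  | a :: p => (c * a) :: lmul c p

theorem ev_ladd (p q : List Int) (t : ℝ) : ev (ladd p q) t = ev p t + ev q t := by
  induction p generalizing q with
  | nil => simp [ladd, ev]
  | cons a p ih =>
    cases q with
    | nil => simp [ladd, ev]
    | cons b q =>
      simp only [ladd, ev, ih]
      push_cast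
      ring

theorem ev_lmul (c : Int) (p : List Int) (t : ℝ) : ev (lmul c p) t = c * ev p t := by
  induction p with
  | nil => simp [lmul, ev]
  | cons a p ih =>
    simp only [lmul, ev, ih]
    push_cast
    ring

/-- add to the constant coefficient -/
def addHd (a : Int) : List Int → List Int
  | [] => [a]
  | c :: r => (a + c) :: r

theorem ev_addHd (a : Int) (p : List Int) (t : ℝ) : ev (addHd a p) t = a + ev p t := by
  cases p with
  | nil => simp [addHd, ev]
  | cons c r =>
    simp only [addHd, ev]
    push_cast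
    ring

/-- multiplication by `t + s` -/
def mulX (s : Int) : List Int → List Int
  | [] => []
  | b :: q => s * b :: addHd b (mulX s q)

theorem ev_mulX (s : Int) (p : List Int) (t : ℝ) : ev (mulX s p) t = (t + s) * ev p t := by
  induction p with
  | nil => simp [mulX, ev]
  | cons b q ih =>
    simp only [mulX, ev, ev_addHd, ih]
    push_cast
    ring

/-- `p (t + s)` -/
def shift (s : Int) : List Int → List Int
  | [] => []
  | a :: q => addHd a (mulX s (shift s q))

theorem ev_shift (s : Int) (p : List Int) (t : ℝ) : ev (shift s p) t = ev p (t + s) := by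
  induction p with
  | nil => simp [shift, ev]
  | cons a q ih => simp only [shift, ev, ev_addHd, ev_mulX, ih]

/-- coefficients multiplied by `2^k, 2^(k-1), ...` -/
def dsc : ℕ → List Int → List Int
  | _, [] => []
  | k, a :: p => ((2 ^ k : ℕ) : Int) * a :: dsc (k - 1) p

theorem ev_dsc (k : ℕ) (p : List Int) (t : ℝ) (h : p.length ≤ k + 1) :
    ev (dsc k p) t = 2 ^ k * ev p (t / 2) := by
  induction p generalizing k with
  | nil => simp [dsc, ev]
  | cons a p ih =>
    rw [dsc]
    simp only [ev]
    cases p with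
    | nil =>
      simp only [dsc, ev]
      push_cast
      ring
    | cons b q =>
      have hk : 1 ≤ k := by simp at h; omega
      rw [ih (k - 1) (by simp at h ⊢; omega)]
      have e : (2 : ℝ) ^ k = 2 ^ (k - 1) * 2 := by
        rw [← pow_succ]; congr 1; omega
      push_cast
      rw [e]
      ring

/-- add to the first row -/
def raddHd (a : List Int) : List (List Int) → List (List Int)
  | [] => [a]
  | c :: r => ladd a c :: r

theorem ev2_raddHd (a : List Int) (p : List (List Int)) (u v : ℝ) :
    ev2 (raddHd a p) u v = ev a v + ev2 p u v := by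
  cases p with
  | nil => simp [raddHd, ev2]
  | cons c r =>
    simp only [raddHd, ev2, ev_ladd]
    ring

/-- multiplication by `u + s` -/
def rmulX (s : Int) : List (List Int) → List (List Int)
  | [] => []
  | b :: q => lmul s b :: raddHd b (rmulX s q)

theorem ev2_rmulX (s : Int) (p : List (List Int)) (u v : ℝ) :
    ev2 (rmulX s p) u v = (u + s) * ev2 p u v := by
  induction p with
  | nil => simp [rmulX, ev2]
  | cons b q ih =>
    simp only [rmulX, ev2, ev2_raddHd, ih, ev_lmul]
    ring

/-- `M (u + s)` -/
def rshift (s : Int) : List (List Int) → List (List Int)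
  | [] => []
  | a :: q => raddHd a (rmulX s (rshift s q))

theorem ev2_rshift (s : Int) (p : List (List Int)) (u v : ℝ) :
    ev2 (rshift s p) u v = ev2 p (u + s) v := by
  induction p with
  | nil => simp [rshift, ev2]
  | cons a q ih => simp only [rshift, ev2, ev2_raddHd, ev2_rmulX, ih]

/-- rows multiplied by `2^k, 2^(k-1), ...` -/
def rdsc : ℕ → List (List Int) → List (List Int)
  | _, [] => []
  | k, a :: p => lmul ((2 ^ k : ℕ) : Int) a :: rdsc (k - 1) p

theorem ev2_rdsc (k : ℕ) (p : List (List Int)) (u v : ℝ) (h : p.length ≤ k + 1) :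
    ev2 (rdsc k p) u v = 2 ^ k * ev2 p (u / 2) v := by
  induction p generalizing k with
  | nil => simp [rdsc, ev2]
  | cons a p ih =>
    rw [rdsc]
    simp only [ev2, ev_lmul]
    cases p with
    | nil =>
      simp only [rdsc, ev2]
      push_cast
      ring
    | cons b q =>
      have hk : 1 ≤ k := by simp at h; omega
      rw [ih (k - 1) (by simp at h ⊢; omega)]
      have e : (2 : ℝ) ^ k = 2 ^ (k - 1) * 2 := by
        rw [← pow_succ]; congr 1; omega
      push_cast
      rw [e]
      ring

/-- halving in the outer variable, `s = 1` or `s = -1` -/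
def halfU (n : ℕ) (s : Int) (M : List (List Int)) : List (List Int) := rshift s (rdsc n M)

/-- halving in the inner variable -/
def halfV (n : ℕ) (s : Int) : List (List Int) → List (List Int)
  | [] => []
  | r :: M => shift s (dsc n r) :: halfV n s M

theorem ev2_halfU (n : ℕ) (s : Int) (M : List (List Int)) (u v : ℝ) (h : M.length ≤ n + 1) :
    ev2 (halfU n s M) u v = 2 ^ n * ev2 M ((u + s) / 2) v := by
  rw [halfU, ev2_rshift, ev2_rdsc n M _ _ h]

/-- all rows have length at most `k` -/
def lenOk (k : ℕ) : List (List Int) → Bool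
  | [] => true
  | r :: M => Nat.ble r.length k && lenOk k M

theorem ev2_halfV (n : ℕ) (s : Int) (M : List (List Int)) (u v : ℝ)
    (h : lenOk (n + 1) M = true) :
    ev2 (halfV n s M) u v = 2 ^ n * ev2 M u ((v + s) / 2) := by
  induction M with
  | nil => simp [ev2, halfV]
  | cons r M ih =>
    simp only [lenOk, Bool.and_eq_true, Nat.ble_eq] at h
    simp only [halfV, ev2]
    rw [ih h.2, ev_shift, ev_dsc n r _ h.1]
    ring

/-- sum of absolute values -/
def sabs : List Int → Int
  | [] => 0
  | a :: p => (a.natAbs : Int) + sabs p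

/-- lower bound on `[-1,1]` -/
def lbE : List Int → Int
  | [] => 0
  | [a] => a
  | a :: b :: p => a - (b.natAbs : Int) + min 0 (lbE p)

/-- lower bound on the square -/
def lb2 : List (List Int) → Int
  | [] => 0
  | [r] => lbE r
  | r :: q :: N => lbE r - sabs q + min 0 (lb2 N)

theorem abs_ev (p : List Int) {t : ℝ} (ht : |t| ≤ 1) : |ev p t| ≤ sabs p := by
  induction p with
  | nil => simp [ev, sabs]
  | cons a p ih =>
    simp only [ev, sabs]
    have h3 : ((a.natAbs : Int) : ℝ) = |(a:ℝ)| := by
      rw [← Int.abs_eq_natAbs, Int.cast_abs]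
    rw [Int.cast_add, h3]
    have h4 : |t * ev p t| ≤ sabs p := by
      rw [abs_mul]
      calc |t| * |ev p t| ≤ 1 * |ev p t| := by gcongr
        _ = |ev p t| := one_mul _
        _ ≤ _ := ih
    linarith [abs_add_le (a : ℝ) (t * ev p t)]

theorem lbE_le (p : List Int) {t : ℝ} (ht : |t| ≤ 1) : (lbE p : ℝ) ≤ ev p t := by
  induction p using lbE.induct with
  | case1 => simp [ev, lbE]
  | case2 a => simp [ev, lbE]
  | case3 a b p ih =>
    simp only [ev, lbE]
    have h1 : -(|(b:ℝ)|) ≤ t * b := by
      have : |t * (b:ℝ)| ≤ |(b:ℝ)| := by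
        rw [abs_mul]
        calc |t| * |(b:ℝ)| ≤ 1 * |(b:ℝ)| := by gcongr
          _ = _ := one_mul _
      linarith [(abs_le.1 this).1]
    have h2 : min 0 (lbE p : ℝ) ≤ t ^ 2 * ev p t := by
      have ht2 : t ^ 2 ≤ 1 := by
        rw [← sq_abs]; nlinarith [abs_nonneg t]
      rcases le_or_gt 0 (ev p t) with h | h
      · exact (min_le_left _ _).trans (mul_nonneg (sq_nonneg t) h)
      · calc min 0 (lbE p : ℝ) ≤ lbE p := min_le_right _ _
          _ ≤ ev p t := ih
          _ = 1 * ev p t := (one_mul _).symm
          _ ≤ t ^ 2 * ev p t := by nlinarith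
    have h3 : ((b.natAbs : Int) : ℝ) = |(b:ℝ)| := by
      rw [← Int.abs_eq_natAbs, Int.cast_abs]
    have h4 : ((a - (b.natAbs : Int) + min 0 (lbE p) : Int) : ℝ) =
        a - |(b:ℝ)| + min 0 (lbE p : ℝ) := by
      rw [Int.cast_add, Int.cast_sub, h3, Int.cast_min]
      simp
    rw [h4]
    nlinarith

theorem lb2_le (M : List (List Int)) {u v : ℝ} (hu : |u| ≤ 1) (hv : |v| ≤ 1) :
    (lb2 M : ℝ) ≤ ev2 M u v := by
  induction M using lb2.induct with
  | case1 => simp [ev2, lb2]
  | case2 r =>
    simp only [ev2, lb2]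
    linarith [lbE_le r hv]
  | case3 r q N ih =>
    simp only [ev2, lb2]
    have h1 : -(sabs q : ℝ) ≤ u * ev q v := by
      have : |u * ev q v| ≤ sabs q := by
        rw [abs_mul]
        calc |u| * |ev q v| ≤ 1 * |ev q v| := by gcongr
          _ = |ev q v| := one_mul _
          _ ≤ _ := abs_ev q hv
      linarith [(abs_le.1 this).1]
    have h2 : min 0 (lb2 N : ℝ) ≤ u ^ 2 * ev2 N u v := by
      have ht2 : u ^ 2 ≤ 1 := by
        rw [← sq_abs]; nlinarith [abs_nonneg u]
      rcases le_or_gt 0 (ev2 N u v) with h | h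
      · exact (min_le_left _ _).trans (mul_nonneg (sq_nonneg u) h)
      · calc min 0 (lb2 N : ℝ) ≤ lb2 N := min_le_right _ _
          _ ≤ ev2 N u v := ih
          _ = 1 * ev2 N u v := (one_mul _).symm
          _ ≤ u ^ 2 * ev2 N u v := by nlinarith
    have h4 : ((lbE r - sabs q + min 0 (lb2 N) : Int) : ℝ) =
        lbE r - sabs q + min 0 (lb2 N : ℝ) := by
      rw [Int.cast_add, Int.cast_sub, Int.cast_min]
      simp
    rw [h4]
    nlinarith [lbE_le r hv]

/-- subdivision scheme -/
inductive Tr where
  | o : Tr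
  | u : Tr → Tr → Tr
  | v : Tr → Tr → Tr

/-- the check; `n`, `m` bound the degrees in `u` and in `v` -/
def cov (n m : ℕ) : Tr → List (List Int) → Bool
  | .o, M => decide (0 ≤ lb2 M)
  | .u a b, M => Nat.ble M.length (n + 1) && cov n m a (halfU n (-1) M) &&
      cov n m b (halfU n 1 M)
  | .v a b, M => lenOk (m + 1) M && cov n m a (halfV m (-1) M) &&
      cov n m b (halfV m 1 M)

theorem split_cases {P : ℝ → Prop} {u : ℝ} (hu : |u| ≤ 1)
    (h1 : ∀ w : ℝ, |w| ≤ 1 → P ((w + -1) / 2)) (h2 : ∀ w : ℝ, |w| ≤ 1 → P ((w + 1) / 2)) : P u := by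
  have hu' := abs_le.1 hu
  rcases le_or_gt u 0 with h | h
  · have := h1 (2 * u + 1) (abs_le.2 ⟨by linarith, by linarith⟩)
    have e : (2 * u + 1 + -1) / 2 = u := by ring
    rwa [e] at this
  · have := h2 (2 * u - 1) (abs_le.2 ⟨by linarith, by linarith⟩)
    have e : (2 * u - 1 + 1) / 2 = u := by ring
    rwa [e] at this

theorem cov_sound (n m : ℕ) (T : Tr) (M : List (List Int)) (h : cov n m T M = true) {u v : ℝ}
    (hu : |u| ≤ 1) (hv : |v| ≤ 1) : 0 ≤ ev2 M u v := by
  induction T generalizing M u v with
  | o =>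
    simp only [cov, decide_eq_true_eq] at h
    have : (0:ℝ) ≤ lb2 M := by exact_mod_cast h
    linarith [lb2_le M hu hv]
  | u a b iha ihb =>
    simp only [cov, Bool.and_eq_true, Nat.ble_eq] at h
    obtain ⟨⟨hl, ha⟩, hb⟩ := h
    refine split_cases (P := fun u => 0 ≤ ev2 M u v) hu ?_ ?_
    · intro w hw
      have := iha _ ha hw hv
      rw [ev2_halfU n _ M _ _ hl] at this
      push_cast at this
      exact nonneg_of_mul_nonneg_right this (by positivity)
    · intro w hw
      have := ihb _ hb hw hv
      rw [ev2_halfU n _ M _ _ hl] at this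
      push_cast at this
      exact nonneg_of_mul_nonneg_right this (by positivity)
  | v a b iha ihb =>
    simp only [cov, Bool.and_eq_true] at h
    obtain ⟨⟨hl, ha⟩, hb⟩ := h
    refine split_cases (P := fun v => 0 ≤ ev2 M u v) hv ?_ ?_
    · intro w hw
      have := iha _ ha hu hw
      rw [ev2_halfV m _ M _ _ hl] at this
      push_cast at this
      exact nonneg_of_mul_nonneg_right this (by positivity)
    · intro w hw
      have := ihb _ hb hu hw
      rw [ev2_halfV m _ M _ _ hl] at this
      push_cast at this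
      exact nonneg_of_mul_nonneg_right this (by positivity)

/-- scaling of the outer variable -/
def rscl (c : Int) : List (List Int) → List (List Int)
  | [] => []
  | a :: p => a :: rmulR c (rscl c p)
where
  /-- all rows multiplied -/
  rmulR (c : Int) : List (List Int) → List (List Int)
    | [] => []
    | a :: p => lmul c a :: rmulR c p

theorem ev2_rmulR (c : Int) (M : List (List Int)) (u v : ℝ) :
    ev2 (rscl.rmulR c M) u v = c * ev2 M u v := by
  induction M with
  | nil => simp [rscl.rmulR, ev2]
  | cons a p ih =>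
    simp only [rscl.rmulR, ev2, ev_lmul, ih]
    ring

theorem ev2_rscl (c : Int) (M : List (List Int)) (u v : ℝ) :
    ev2 (rscl c M) u v = ev2 M (c * u) v := by
  induction M with
  | nil => simp [rscl, ev2]
  | cons a p ih =>
    simp only [rscl, ev2, ev2_rmulR, ih]
    ring

/-- nonnegativity on a rectangle `[s-c, s+c] × [0,1]` -/
theorem cov_rect {n m : ℕ} {T : Tr} {M : List (List Int)} {s c : Int} (hc : 0 < c)
    (hl : lenOk (m + 1) (rscl c (rshift s M)) = true)
    (h : cov n m T (halfV m 1 (rscl c (rshift s M))) = true) {y t : ℝ}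
    (h1 : (s:ℝ) - c ≤ y) (h2 : y ≤ (s:ℝ) + c) (ht0 : 0 ≤ t) (ht1 : t ≤ 1) :
    0 ≤ ev2 M y t := by
  have hc' : (0:ℝ) < c := by exact_mod_cast hc
  have hu : |(y - s) / c| ≤ 1 := by
    rw [abs_le]
    constructor
    · rw [le_div_iff₀ hc']; linarith
    · rw [div_le_iff₀ hc']; linarith
  have hv : |2 * t - 1| ≤ 1 := abs_le.2 ⟨by linarith, by linarith⟩
  have := cov_sound n m T _ h hu hv
  rw [ev2_halfV m _ _ _ _ hl, ev2_rscl, ev2_rshift] at this
  have e1 : (c:ℝ) * ((y - s) / c) + s = y := by field_simp; ring
  have e2 : (2 * t - 1 + ((1:Int):ℝ)) / 2 = t := by push_cast; ring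
  rw [e1, e2] at this
  exact nonneg_of_mul_nonneg_right this (by positivity)

end Pool.Agent.H81.Shore
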