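import Mathlib
import Pool.Agent.H44.Shore.Defs

/-!
Shoreline search: certificates built from four polynomials `R0 R2 R3 R4`, and their validity.
-/

open Polynomial Real

namespace Pool.Agent.H81.Shore

open Pool.Agent.H44.Shore

/-- the slope constant -/
noncomputable def kap (ρ xL : ℝ) : ℝ := Real.log (ρ * xL) / (1 / ρ + xL)

/-- certificate data from `R0, R2, R3, R4` -/
noncomputable def mkDat (ρ xL rB : ℝ) (R0 R2 R3 R4 : ℝ[X]) : Dat where
  ρ := ρ
  xL := xL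
  rB := rB
  B0 := (C (1 / ρ) - X) * (C (kap ρ xL) + (X + C xL) * R0)
  B2 := (C (1 / ρ) - X) * ((X + C xL) * R2)
  B3 := (C (1 / ρ) - X) * ((X + C xL) * R3)
  B4 := (C (1 / ρ) - X) * ((X + C xL) * R4)

/-- the combination `R` -/
noncomputable def RR (R0 R2 R3 R4 : ℝ[X]) (x w : ℝ) : ℝ :=
  R0.eval x + w ^ 2 * R2.eval x + w ^ 3 * R3.eval x + w ^ 4 * R4.eval x

theorem b_mkDat (ρ xL rB : ℝ) (R0 R2 R3 R4 : ℝ[X]) (x w : ℝ) :
    (mkDat ρ xL rB R0 R2 R3 R4).b x w =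
      (1 / ρ - x) * (kap ρ xL + (x + xL) * RR R0 R2 R3 R4 x w) := by
  simp only [Dat.b, mkDat, RR, eval_mul, eval_sub, eval_add, eval_C, eval_X]
  ring

/-- partial sums of the logarithmic series -/
theorem neg_log_ge (N : ℕ) {y : ℝ} (h0 : 0 ≤ y) (h1 : y < 1) :
    ∑ k ∈ Finset.range N, y ^ (k + 1) / (k + 1) ≤ -Real.log (1 - y) := by
  have h := Real.hasSum_pow_div_log_of_abs_lt_one (abs_lt.2 ⟨by linarith, h1⟩)
  exact sum_le_hasSum _ (fun k _ => by positivity) h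

theorem ok_mkDat {ρ xL rB : ℝ} {R0 R2 R3 R4 : ℝ[X]} (N : ℕ) (hρ : 1 < ρ) (h1 : 1 / ρ < xL)
    (hrB : xL ≤ rB)
    (hG : ∀ x t : ℝ, -xL ≤ x → x ≤ -(1 / ρ) → 0 ≤ t → t ≤ 1 →
      0 ≤ -kap ρ xL + (1 / ρ - x) * RR R0 R2 R3 R4 x (t * (1 - x ^ 2 / rB ^ 2)) +
        (∑ k ∈ Finset.range N, ((x + xL) / xL) ^ k / (k + 1)) / xL) :
    (mkDat ρ xL rB R0 R2 R3 R4).Ok where
  hρ := hρ
  h1L := h1
  hrB := by
    have : (0:ℝ) < 1 / ρ := by positivity
    show 0 < rB
    linarith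
  e0 := by simp [mkDat]
  e2 := by simp [mkDat]
  e3 := by simp [mkDat]
  e4 := by simp [mkDat]
  f0 := by
    have h0 : (0:ℝ) < 1 / ρ := by positivity
    have h2 : 1 / ρ + xL ≠ 0 := by linarith
    simp only [mkDat, eval_mul, eval_sub, eval_add, eval_C, eval_X, kap]
    rw [neg_add_cancel, zero_mul, add_zero, sub_neg_eq_add, mul_div_cancel₀ _ h2]
  f2 := by simp [mkDat]
  f3 := by simp [mkDat]
  f4 := by simp [mkDat]
  c2 := by
    intro x w hx1 hx2 hw0 hw1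
    have h0 : (0:ℝ) < 1 / ρ := by positivity
    have hxL : 0 < xL := h0.trans h1
    have hrB0 : 0 < rB := hxL.trans_le hrB
    change -xL ≤ x at hx1
    change x ≤ -(1 / ρ) at hx2
    change w ≤ max 0 (1 - x ^ 2 / rB ^ 2) at hw1
    rw [b_mkDat]
    show Real.log (ρ * (-x)) ≤ _
    have hx0 : x < 0 := by linarith
    have hxx : x ^ 2 ≤ rB ^ 2 := by nlinarith
    have hW : 0 ≤ 1 - x ^ 2 / rB ^ 2 := by
      rw [sub_nonneg, div_le_one (by positivity)]
      exact hxx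
    rw [max_eq_right hW] at hw1
    -- write `w = t * W`
    obtain ⟨t, ht0, ht1, htw⟩ : ∃ t : ℝ, 0 ≤ t ∧ t ≤ 1 ∧ w = t * (1 - x ^ 2 / rB ^ 2) := by
      rcases hW.eq_or_lt with h | h
      · exact ⟨0, le_rfl, zero_le_one, by linarith⟩
      · exact ⟨w / (1 - x ^ 2 / rB ^ 2), by positivity, (div_le_one h).2 hw1,
          (div_mul_cancel₀ _ h.ne').symm⟩
    have hg := hG x t hx1 hx2 ht0 ht1
    rw [← htw] at hg
    set y : ℝ := (x + xL) / xL with hy
    have hy0 : 0 ≤ y := div_nonneg (by linarith) hxL.le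
    have hy1 : y < 1 := by rw [hy, div_lt_one hxL]; linarith
    have hlog := neg_log_ge N hy0 hy1
    have he : ρ * (-x) = (ρ * xL) * (1 - y) := by
      rw [hy]; field_simp; ring
    have hρ0 : 0 < ρ := by linarith
    rw [he, Real.log_mul (by positivity) (by linarith)]
    have hk : Real.log (ρ * xL) = kap ρ xL * (1 / ρ + xL) := by
      rw [kap, div_mul_cancel₀]; linarith
    have hs : ∑ k ∈ Finset.range N, y ^ (k + 1) / ((k:ℝ) + 1) =
        (x + xL) * ((∑ k ∈ Finset.range N, y ^ k / ((k:ℝ) + 1)) / xL) := by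
      rw [mul_div_assoc', mul_comm (x + xL), mul_div_assoc, ← hy, Finset.sum_mul]
      refine Finset.sum_congr rfl fun k _ => ?_
      ring
    rw [hk]
    have hm := mul_nonneg (by linarith : 0 ≤ x + xL) hg
    rw [hs] at hlog
    nlinarith [hm, hlog]


end Pool.Agent.H81.Shore
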