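import Mathlib
import Pool.Agent.H44.Shore.Num
import Pool.Agent.H4.Shore.Final
import Pool.Agent.H81.Shore.Mk

/-!
Shoreline search: enclosures of the slope constants of the two certificates.
-/

open Real

namespace Pool.Agent.H81.Shore

open Pool.Agent.H44.Shore Pool.Agent.H44.Shore.Num

theorem log_bd {p q : ℕ} {lo hi : ℤ} (hq : 0 < q) (h1 : q ≤ p) (h2 : p ≤ 2 * q)
    (hd : lo ≤ (lgSer p q).1 ∧ (lgSer p q).2 ≤ hi) :
    (lo : ℝ) ≤ Real.log ((p:ℝ) / q) * 1152921504606846976 ∧
      Real.log ((p:ℝ) / q) * 1152921504606846976 ≤ hi := by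
  obtain ⟨a, b⟩ := lgSer_sound hq h1 h2
  have c1 : (lo : ℝ) ≤ ((lgSer p q).1 : ℝ) := by exact_mod_cast hd.1
  have c2 : ((lgSer p q).2 : ℝ) ≤ (hi : ℝ) := by exact_mod_cast hd.2
  have e : ((S : ℕ) : ℝ) = 1152921504606846976 := by norm_num [S]
  rw [e] at a b
  exact ⟨c1.trans a, b.trans c2⟩

theorem log_two_bd : (799144290325163978 : ℝ) ≤ Real.log 2 * 1152921504606846976 ∧
    Real.log 2 * 1152921504606846976 ≤ 799144290325167979 := by
  have := log_bd (p := 2) (q := 1) (lo := 799144290325163978) (hi := 799144290325167979)
    (by norm_num) (by norm_num) (by norm_num) (by decide +kernel)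
  push_cast at this
  rwa [div_one] at this

theorem log_1_bd : (402248267751504809 : ℝ) ≤ Real.log (567 / 400) * 1152921504606846976 ∧
    Real.log (567 / 400) * 1152921504606846976 ≤ 402248267751505210 := by
  have := log_bd (p := 567) (q := 400) (lo := 402248267751504809) (hi := 402248267751505210)
    (by norm_num) (by norm_num) (by norm_num) (by decide +kernel)
  push_cast at this
  exact this

theorem log_yl_bd : (348974770583584107 : ℝ) ≤
    Real.log (135349124756 / 100000000000) * 1152921504606846976 := by
  have := log_bd (p := 135349124756) (q := 100000000000) (lo := 348974770583584107)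
    (hi := 348974770583588108) (by norm_num) (by norm_num) (by norm_num) (by decide +kernel)
  push_cast at this
  exact this.1

theorem log_yh_bd : Real.log (135349124761 / 100000000000) * 1152921504606846976 ≤
    348974770626178761 := by
  have := log_bd (p := 135349124761) (q := 100000000000) (lo := 348974770626174760)
    (hi := 348974770626178761) (by norm_num) (by norm_num) (by norm_num) (by decide +kernel)
  push_cast at this
  exact this.2

/-- the slope constant of the first certificate -/
theorem kap1_bd : (3.66820499398334 : ℝ) ≤ kap (27 / 2) (21 / 100) ∧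
    kap (27 / 2) (21 / 100) ≤ 3.66820499398336 := by
  have h1 := log_two_bd
  have h2 := log_1_bd
  have e : Real.log (27 / 2 * (21 / 100)) = Real.log 2 + Real.log (567 / 400) := by
    rw [← Real.log_mul (by norm_num) (by norm_num)]
    norm_num
  unfold kap
  rw [e]
  constructor
  · rw [le_div_iff₀ (by norm_num)]
    norm_num at *
    linarith [h1.1, h2.1]
  · rw [div_le_iff₀ (by norm_num)]
    norm_num at *
    linarith [h1.2, h2.2]

open Pool.Agent.H4.Shore in
theorem x1_bd {α ω : ℝ} (h : Consts α ω) :
    0.0724053444550754 ≤ sin α * cos ω ∧ sin α * cos ω ≤ 0.0724053444573156 := by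
  have h1 := h.sal
  have h2 := h.sau
  have h3 := h.cwl
  have h4 := h.cwu
  constructor
  · calc (0.0724053444550754 : ℝ) ≤ 0.2078302662956544 * 0.34838691084614861 := by norm_num
      _ ≤ sin α * cos ω := by gcongr
  · calc sin α * cos ω ≤ 0.20783026629761079 * 0.3483869108536475 := by gcongr
      _ ≤ 0.0724053444573156 := by norm_num

open Pool.Agent.H4.Shore in
/-- the slope constant of the exact certificate -/
theorem kapX_bd {α ω : ℝ} (h : Consts α ω) :
    (3.71018895358 : ℝ) ≤ kap (1 / (sin α * cos ω)) (196 / 1000) ∧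
    kap (1 / (sin α * cos ω)) (196 / 1000) ≤ 3.71018895375 := by
  obtain ⟨a, b⟩ := x1_bd h
  have h1 := log_two_bd
  have h2 := log_yl_bd
  have h3 := log_yh_bd
  set x := sin α * cos ω with hx
  have hx0 : 0 < x := by linarith
  have e : 1 / x * (196 / 1000) = 2 * ((98 / 1000) / x) := by ring
  have hL : Real.log (1 / x * (196 / 1000)) = Real.log 2 + Real.log ((98 / 1000) / x) := by
    rw [e, Real.log_mul (by norm_num) (by positivity)]
  have l1 : Real.log (135349124756 / 100000000000) ≤ Real.log ((98 / 1000) / x) := by
    apply Real.log_le_log (by norm_num)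
    rw [le_div_iff₀ hx0]
    calc (135349124756 / 100000000000 : ℝ) * x
        ≤ 135349124756 / 100000000000 * 0.0724053444573156 := by gcongr
      _ ≤ 98 / 1000 := by norm_num
  have l2 : Real.log ((98 / 1000) / x) ≤ Real.log (135349124761 / 100000000000) := by
    apply Real.log_le_log (by positivity)
    rw [div_le_iff₀ hx0]
    calc (98 / 1000 : ℝ) ≤ 135349124761 / 100000000000 * 0.0724053444550754 := by
          norm_num
      _ ≤ _ := by gcongr
  unfold kap
  rw [hL, one_div_one_div]
  constructor
  · rw [le_div_iff₀ (by linarith)]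
    norm_num at *
    nlinarith [h1.1, h2, l1]
  · rw [div_le_iff₀ (by linarith)]
    norm_num at *
    nlinarith [h1.2, h3, l2]

end Pool.Agent.H81.Shore
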