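import Mathlib
import Pool.Agent.H81.Shore.Box
import Pool.Agent.H81.Shore.Const

/-!
Shoreline search: the certificate for the target ratio `27/2`.
-/

open Polynomial Real

namespace Pool.Agent.H81.Shore

open Pool.Agent.H44.Shore

/-- the certificate for `27/2` -/
noncomputable def D1 : Dat :=
  mkDat (27 / 2) (21 / 100) (3 / 10) (C (-261 / 20) + C (-45) * X) (C (146 / 5) + C 124 * X)
    (C (-469 / 20) + C (-91) * X) 0

/-- integer form -/
def M0_1 : List (List Int) := [
  [3032337681833603694564664909444450682880, 0, 704297056022330741869157812224000000000, -565608423415193695096977763584000000000, 0],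
  [10254367509554578308778910298240000000, 0, -1206881434152928503634236687360000000, 1007558399367308834964074540160000000, 0],
  [19106149816683552738161672640000000, 0, -1921382976670316096975670528000000, 1662714059238066759228706752000000, 0],
  [26125927943702384397600000000000, 0, 919738937778485370853708800000, -1151758572664962088436299200000, 0],
  [26187266595431163600000000000, 0, 1157472569147624929463040000, -1407951286043074140039840000, 0],
  [18579979729621800000000000, 0, -175228421311249308576000, 438865482649353028668000, 0],
  [9135334977300000000000, 0, -201039269454061012800, 473902106400255531600, 0],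
  [2966629050000000000, 0, 0, -55741691135669490, 0],
  [573300000000000, 0, 0, -56217376630233, 0],
  [50000000000, 0, 0, 0, 0]]
/-- common denominator -/
def S_1 : Int := 325616789599365240247727070720000000000
/-- scheme -/
def T_1 : Tr := (.u (.u (.v (.u .o .o) (.u .o .o)) (.v .o .o)) (.u .o .o))

theorem len1 : lenOk 5 (rscl 367 (rshift (-767) M0_1)) = true := by decide +kernel

theorem cov1 : cov 9 4 T_1 (halfV 4 1 (rscl 367 (rshift (-767) M0_1))) = true := by
  decide +kernel

theorem M0_1_eq (x t : ℝ) : ev2 M0_1 (5400 * x) t =
    325616789599365240247727070720000000000 * (-(917051249 / 250000000) + (1 / (27 / 2) - x) *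
      RR (C (-261 / 20) + C (-45) * X) (C (146 / 5) + C 124 * X)
        (C (-469 / 20) + C (-91) * X) 0 x (t * (1 - x ^ 2 / (3 / 10) ^ 2)) +
      (∑ k ∈ Finset.range 10, ((x + 21 / 100) / (21 / 100)) ^ k / (k + 1)) / (21 / 100)) := by
  simp only [M0_1, ev2, ev, RR, eval_add, eval_mul, eval_C, eval_X, eval_zero,
    Finset.sum_range_succ, Finset.sum_range_zero]
  push_cast
  ring

theorem D1_ok : D1.Ok := by
  apply ok_mkDat 10 (by norm_num) (by norm_num) (by norm_num)
  intro x t hx1 hx2 ht0 ht1
  have h1 : 0 ≤ ev2 M0_1 (5400 * x) t :=
    cov_rect (by norm_num) len1 cov1 (by push_cast; linarith) (by push_cast; linarith) ht0 ht1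
  rw [M0_1_eq] at h1
  have h2 := kap1_bd.2
  nlinarith [h1, h2]

end Pool.Agent.H81.Shore
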