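import Mathlib
import Pool.Agent.H81.Shore.Box
import Pool.Agent.H81.Shore.Const

/-!
Shoreline search: the certificate for the exact optimal ratio.
-/

open Polynomial Real

namespace Pool.Agent.H81.Shore

open Pool.Agent.H44.Shore

/-- coefficient polynomials of the exact certificate -/
noncomputable def RX0 : ℝ[X] :=
  C (-7.596) + C 167.65 * X + C 146 * X ^ 2 + C (-6650) * X ^ 3

/-- coefficient polynomials of the exact certificate -/
noncomputable def RX2 : ℝ[X] :=
  C (-23.414) + C (-1468.45) * X + C 1826 * X ^ 2 + C 91340 * X ^ 3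

/-- coefficient polynomials of the exact certificate -/
noncomputable def RX3 : ℝ[X] :=
  C 72.344 + C 2359.15 * X + C (-7857) * X ^ 2 + C (-195360) * X ^ 3

/-- coefficient polynomials of the exact certificate -/
noncomputable def RX4 : ℝ[X] :=
  C (-48.5) + C (-1068.3) * X + C 6038 * X ^ 2 + C 114410 * X ^ 3

/-- the exact certificate -/
noncomputable def DX (α ω : ℝ) : Dat :=
  mkDat (1 / (sin α * cos ω)) (196 / 1000) (31 / 100) RX0 RX2 RX3 RX4

/-- integer form -/
def M0_X : List (List Int) := [
  [457035510578588180424087995343899378283250114656599609375000000000000000, 0, -66952684605402575234454735088695522957090836271243164062500000000000000, 206868754381705129527692549553967238097197380166003906250000000000000000, -138686478319040954081791007593821340369817440811279296875000000000000000],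
  [1985126912067590659556680573974827823500410322997983398437500000000000, 0, -654872449767069289964774605411133698465855843517827148437500000000000, 777786504183521751733851833614829876223291442741977539062500000000000, -227880438582644442795078416385977635491345019922431640625000000000000],
  [4808805860447725217359840458082081594052602840424492187500000000000, 0, 2584343375915795867360566912964318447850754918854960937500000000000, -4883815688667667670184939411024663391338951181661777343750000000000, 2609154892212371809304086331180766085237422185773476562500000000000],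
  [10341206218471997009823424933716728560282327827811132812500000000, 0, 2057748067981750167479210714844276244484931374550234375000000000, -2957918932103757142051400576986518228857169342972421875000000000, 1088985379015487477396677080375895791702515902864804687500000000],
  [16699424197757372706627113694912941151757812500000000000000000, 0, -7888266492240116385799423037669154358442368577250000000000000, 18227987409292760138123475845504732654904131462882812500000000, -11333249895963617519316919869532705829133890230687500000000000],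
  [18697965954454640291234336333274841308593750000000000000000, 0, -1372635748159680472425559772842128550944054803156250000000, 2885042211802299952626066310468972703754140838468750000000, -1418284172251613592731519058655312821836900753062500000000],
  [15949621448380245339587855577468872070312500000000000000, 0, 5242815192515930941077227235869379252820093668750000000, -17833726588597663247005532332275788072473589653125000000, 14548754275482238987277010735717374241579513037500000000],
  [9985817922549335839192998409271240234375000000000000, 0, 262056005334685520742208944169811056759294162500000, -1088673968957721942786779178825229269083910262500000, 803340205953177607574765691926786552859549712500000],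
  [4464933317733113519362211227416992187500000000000, 0, -999944635625104639681921521743662500000000000000, 6749666422727130151877888817815244378018453750000, -8205188907004377313416790238715952647453960000000],
  [1351546881238201105177402496337890625000000000, 0, 0, 143265478372748959688255264245248846625560000, -211517920424410906663972348527247052500440000],
  [248474965587392315268516540527343750000000, 0, 0, -890199196359899183589188732760000000000000, 2156718077521322898145687029857105345961000],
  [20969960268998891115188598632812500000, 0, 0, 0, 21298435172786086388350819568500252779],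
  [0, 0, 0, 0, -216996205954280974369022259000000000]]
/-- common denominator -/
def S_X : Int := 39493148445930565997564381948721335449218750000000000000000000000000000
/-- scheme -/
def T_X : Tr := (.u (.v (.u (.v (.u .o .o) (.u (.v .o .o) (.v .o (.u .o (.v .o .o))))) (.v (.u (.u .o .o) (.u (.v .o .o) (.u (.v .o .o) (.v .o .o)))) (.u (.v (.u .o (.v .o .o)) (.u (.v .o .o) .o)) (.v (.u .o .o) (.u .o .o))))) (.u (.v (.u (.v (.u .o (.v .o .o)) (.u (.v .o (.u .o (.v .o .o))) (.v (.u .o (.v .o .o)) (.u (.v .o (.u .o (.v .o .o))) (.v (.u .o (.v .o .o)) (.u (.v .o .o) (.v .o .o))))))) (.v (.u (.v .o (.u .o (.v .o .o))) (.v (.u .o .o) (.v .o .o))) (.u (.v (.u (.v .o (.u .o (.v .o .o))) (.v (.v .o .o) .o)) (.u (.v (.v (.u .o .o) .o) (.u (.v .o .o) (.v .o .o))) (.v (.u .o .o) (.u .o .o)))) (.v (.u (.v .o .o) (.v .o .o)) (.u (.v .o .o) .o))))) (.v (.u (.v (.u (.u (.v .o .o) (.v (.u .o .o) .o)) (.v (.u (.u .o .o) (.v .o (.u .o .o))) (.u .o (.v .o .o)))) (.u (.v .o .o) (.v (.u .o .o) .o))) (.u (.v (.u (.v (.u .o .o) .o) .o) .o) .o)) (.u (.v (.u .o .o) .o)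 .o))) (.v (.u (.v (.u (.v .o (.u .o .o)) (.v .o .o)) (.u (.v (.u .o .o) .o) .o)) (.v (.u .o .o) .o)) (.u .o .o)))) (.v (.u (.v (.u (.v (.u (.u .o (.v (.u .o .o) .o)) (.u (.v (.u (.v .o .o) (.v .o .o)) (.v .o .o)) (.v .o .o))) (.u (.v .o .o) (.v (.u .o .o) .o))) (.u (.v .o .o) .o)) (.u (.v (.u .o .o) .o) .o)) (.u .o .o)) (.u (.v .o .o) .o)))

theorem lenX : lenOk 5 (rscl 309 (rshift (-671) M0_X)) = true := by decide +kernel

theorem covX : cov 12 4 T_X (halfV 4 1 (rscl 309 (rshift (-671) M0_X))) = true := by
  decide +kernel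

theorem M0_X_eq (x t : ℝ) : ev2 M0_X (5000 * x) t =
    39493148445930565997564381948721335449218750000000000000000000000000000 * (-3.71018895375 - 0.000001 +
      (0.0724053444562 - x) * RR RX0 RX2 RX3 RX4 x (t * (1 - x ^ 2 / (31 / 100) ^ 2)) +
      (∑ k ∈ Finset.range 12, ((x + 196 / 1000) / (196 / 1000)) ^ k / (k + 1)) /
        (196 / 1000)) := by
  simp only [M0_X, ev2, ev, RR, RX0, RX2, RX3, RX4, eval_add, eval_mul, eval_C, eval_X, eval_pow,
    Finset.sum_range_succ, Finset.sum_range_zero]
  push_cast
  ring

theorem RR_bdX {x w : ℝ} (hx1 : -0.196 ≤ x) (hx2 : x ≤ 0) (hw0 : 0 ≤ w) (hw1 : w ≤ 1) :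
    |RR RX0 RX2 RX3 RX4 x w| ≤ 6000 := by
  have hx : |x| ≤ 0.2 := abs_le.2 ⟨by linarith, by linarith⟩
  have h2 : |x ^ 2| ≤ 0.04 := by
    rw [abs_pow]; nlinarith [abs_nonneg x]
  have h3 : |x ^ 3| ≤ 0.008 := by
    rw [abs_pow]
    have : |x| ^ 3 = |x| * |x| ^ 2 := by ring
    rw [this]
    rw [abs_pow] at h2
    nlinarith [abs_nonneg x, sq_nonneg |x|]
  have b : ∀ a0 a1 a2 a3 : ℝ, |a0 + a1 * x + a2 * x ^ 2 + a3 * x ^ 3| ≤
      |a0| + |a1| * 0.2 + |a2| * 0.04 + |a3| * 0.008 := by
    intro a0 a1 a2 a3
    have e1 : |a1 * x| ≤ |a1| * 0.2 := by rw [abs_mul]; gcongr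
    have e2 : |a2 * x ^ 2| ≤ |a2| * 0.04 := by rw [abs_mul]; gcongr
    have e3 : |a3 * x ^ 3| ≤ |a3| * 0.008 := by rw [abs_mul]; gcongr
    linarith [abs_add_le (a0 + a1 * x + a2 * x ^ 2) (a3 * x ^ 3),
      abs_add_le (a0 + a1 * x) (a2 * x ^ 2), abs_add_le a0 (a1 * x)]
  have hw : ∀ k : ℕ, |w ^ k| ≤ 1 := fun k => by
    rw [abs_pow, abs_of_nonneg hw0]; exact pow_le_one₀ hw0 hw1
  have m : ∀ (k : ℕ) (y B : ℝ), |y| ≤ B → |w ^ k * y| ≤ B := by
    intro k y B hy
    rw [abs_mul]
    calc |w ^ k| * |y| ≤ 1 * B := by
          have := hw k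
          have h0 := abs_nonneg y
          gcongr
      _ = B := one_mul _
  have b0 : |(-7.596 : ℝ) + 167.65 * x + 146 * x ^ 2 + (-6650) * x ^ 3| ≤ 110 :=
    (b _ _ _ _).trans (by norm_num [abs_of_pos, abs_of_neg])
  have b2 := m 2 ((-23.414 : ℝ) + (-1468.45) * x + 1826 * x ^ 2 + 91340 * x ^ 3) 1200
    ((b _ _ _ _).trans (by norm_num [abs_of_pos, abs_of_neg]))
  have b3 := m 3 ((72.344 : ℝ) + 2359.15 * x + (-7857) * x ^ 2 + (-195360) * x ^ 3) 2600
    ((b _ _ _ _).trans (by norm_num [abs_of_pos, abs_of_neg]))
  have b4 := m 4 ((-48.5 : ℝ) + (-1068.3) * x + 6038 * x ^ 2 + 114410 * x ^ 3) 1500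
    ((b _ _ _ _).trans (by norm_num [abs_of_pos, abs_of_neg]))
  simp only [RR, RX0, RX2, RX3, RX4, eval_add, eval_mul, eval_C, eval_X, eval_pow]
  refine (abs_add_le _ _).trans ?_
  refine (add_le_add (abs_add_le _ _) b4).trans ?_
  refine (add_le_add (add_le_add (abs_add_le _ _) b3) le_rfl).trans ?_
  linarith

open Pool.Agent.H4.Shore in
theorem DX_ok {α ω : ℝ} (h : Consts α ω) : (DX α ω).Ok := by
  obtain ⟨ha, hb⟩ := x1_bd h
  have hpos : 0 < sin α * cos ω := by linarith
  apply ok_mkDat 12
  · rw [lt_div_iff₀ hpos]; linarith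
  · rw [one_div_one_div]; linarith
  · norm_num
  intro x t hx1 hx2 ht0 ht1
  rw [one_div_one_div] at hx2 ⊢
  have h1 : 0 ≤ ev2 M0_X (5000 * x) t :=
    cov_rect (by norm_num) lenX covX (by push_cast; linarith) (by push_cast; linarith) ht0 ht1
  rw [M0_X_eq] at h1
  have h2 := (kapX_bd h).2
  have hW0 : 0 ≤ 1 - x ^ 2 / (31 / 100) ^ 2 := by
    rw [sub_nonneg, div_le_one (by norm_num)]
    nlinarith
  have hW1 : 1 - x ^ 2 / (31 / 100) ^ 2 ≤ 1 := by
    have : 0 ≤ x ^ 2 / (31 / 100) ^ 2 := by positivity
    linarith
  have hR := RR_bdX (x := x) (w := t * (1 - x ^ 2 / (31 / 100) ^ 2)) (by linarith) (by linarith)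
    (mul_nonneg ht0 hW0) (mul_le_one₀ ht1 hW0 hW1)
  have hR' := abs_le.1 hR
  set R := RR RX0 RX2 RX3 RX4 x (t * (1 - x ^ 2 / (31 / 100) ^ 2)) with hRdef
  have hd : (sin α * cos ω - 0.0724053444562) * R ≥ -0.0000001 := by
    have : |(sin α * cos ω - 0.0724053444562) * R| ≤ 0.0000000000015 * 6000 := by
      rw [abs_mul]
      apply mul_le_mul _ hR (abs_nonneg _) (by norm_num)
      rw [abs_le]
      constructor <;> linarith
    linarith [(abs_le.1 this).1]
  nlinarith [h1, h2, hd]

end Pool.Agent.H81.Shore
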