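import Mathlib
import Pool.Agent.H81.Shore.Asm1
import Pool.Agent.H4.Shore.Lower
import Pool.Agent.H44.ShoreN.All1

/-!
Stage one: the lower bound `27 / 2`.
-/

namespace Pool.Agent.H81.Shore

open Pool.Agent.H44.Shore Pool.Agent.H65.Shore Pool.Agent.H4.Shore
open scoped ENNReal NNReal

/-- the certificate of stage one -/
theorem cert1 : ∃ (β N : ℂ → ℝ) (Kr : Set ℝ), Cert (27 / 2) β N Kr :=
  PP.cert ok1 (pp1 Pool.Agent.H44.ShoreN.regs1)

/-- stage one -/
theorem stage1 :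
    (∀ γ : ℝ≥0 → Plane, IsTrajectory γ → ENNReal.ofReal (27 / 2) ≤ ratio γ) ∧
      ENNReal.ofReal (27 / 2) ≤ minimaxRatio := by
  obtain ⟨β, N, Kr, hC⟩ := cert1
  exact stage_one (by norm_num) hC

end Pool.Agent.H81.Shore
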