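import Mathlib
import Pool.Agent.H81.Shore.AsmX
import Pool.Agent.H4.Shore.Bridge
import Pool.Agent.H4.Shore.RingData
import Pool.Agent.H44.ShoreN.AllX

/-!
The final theorem on the shoreline problem.
-/

namespace Pool.Agent.H81.Shore

open Pool.Agent.H44.Shore Pool.Agent.H65.Shore Pool.Agent.H4.Shore
open Real

/-- the exact certificate -/
theorem certX {α ω : ℝ} (h : Consts α ω) :
    ∃ (β N : ℂ → ℝ) (Kr : Set ℝ), Cert (1 / (sin α * cos ω)) β N Kr := by
  have hK := cstOkX h
  have hr := ring_all h hK (Pool.Agent.H44.ShoreN.regR h)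
  exact PP.cert (okX h) (ppX hK (Pool.Agent.H44.ShoreN.regsX h) hr)

/-- **The minimax competitive ratio of the shoreline problem.** -/
theorem final : ∃ α ω : ℝ, 0 < α ∧ α < ω ∧ ω < π / 2 ∧
    (2 * π - α - ω) * tan α = log (cos α / cos ω) ∧
    (2 * π - α - ω) * (sin α * sin ω) = cos α ^ 2 * sin (α + ω) ∧
    0.2124695594 < tan α ∧ tan α < 0.2124695595 ∧
    13.811135178 < 1 / (sin α * cos ω) ∧ 1 / (sin α * cos ω) < 13.811135181 ∧
    IsTrajectory (expSpiral (tan α)) ∧
    ratio (expSpiral (tan α)) = ENNReal.ofReal (1 / (sin α * cos ω)) ∧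
    minimaxRatio = ENNReal.ofReal (1 / (sin α * cos ω)) :=
  final_of_cert (fun _ _ h => certX h)

end Pool.Agent.H81.Shore
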