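import Mathlib
import Pool.Agent.H65.Shore.Fan

/-!
Parts of a chain, so that no single check is heavy.
-/

namespace Pool.Agent.H65.Shore

/-- the radius of a row of a chain -/
def rowR : ℕ → List Cell → ℕ → ℕ
  | rn, _, 0 => rn
  | rn, [], _ + 1 => rn
  | _, c :: cs, i + 1 => rowR c.rn cs i

/-- the weight of a row of a chain -/
def rowM : ℕ → List Cell → ℕ → ℕ
  | m, _, 0 => m
  | m, [], _ + 1 => m
  | _, c :: cs, i + 1 => rowM c.m cs i

/-- the part of a chain consisting of `k` cells, starting with cell `i` -/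
def ChD.part (ch : ChD) (i k : ℕ) : ChD where
  dn := ch.dn
  bits := ch.bits
  m2 := ch.m2
  nt := ch.nt
  g := ch.g
  rn := rowR ch.rn ch.cells i
  m := rowM ch.m ch.cells i
  cells := (ch.cells.drop i).take k
  vs := ch.vs

end Pool.Agent.H65.Shore
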