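import Mathlib
import Pool.Agent.H81.Shore.FinX

/-!
The theorem on the shoreline problem, in elementary terms: the plane is `ℂ`, the competitive ratio
of `γ` is at most `ρ` if `γ` meets every line at distance `d > 0` from `0` at a time `t ≤ ρ d`.
-/

namespace Pool.Agent.H81.Shore

open Pool.Agent.H44.Shore Pool.Agent.H65.Shore Pool.Agent.H4.Shore
open Real

/-- covering implies that every line is met in time -/
theorem slim_finds {g : ℝ → ℂ} (hg : Pool.Agent.H4.Shore.IsTraj g) {ρ : ℝ} (hρ : 0 < ρ)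
    (hc : Pool.Agent.H4.Shore.Covers g ρ) (φ d : ℝ) (hd : 0 < d) :
    ∃ t : ℝ, 0 ≤ t ∧ t ≤ ρ * d ∧ (g t).re * cos φ + (g t).im * sin φ = d := by
  obtain ⟨s, hs0, hs1, hs2⟩ := hc φ (ρ * d) (by positivity)
  rw [mul_div_cancel_left₀ d hρ.ne'] at hs2
  have hs2' : d ≤ coord φ (g s) := hs2
  have hcg : ContinuousOn g (Set.Ici 0) := by
    rw [Metric.continuousOn_iff]
    intro b hb ε hε
    refine ⟨ε, hε, fun a ha hab => ?_⟩
    rw [dist_eq_norm]
    refine (hg.2 a b ha hb).trans_lt ?_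
    rwa [Real.dist_eq] at hab
  have hcont : ContinuousOn (fun x : ℝ => coord φ (g x)) (Set.Icc 0 s) :=
    (continuous_coord φ).comp_continuousOn (hcg.mono Set.Icc_subset_Ici_self)
  have h0 : coord φ (g 0) = 0 := by
    rw [hg.1, coord_eq]
    simp
  have hivt := intermediate_value_Icc hs0 hcont
  obtain ⟨x, hx, hxd⟩ := hivt (show d ∈ Set.Icc (coord φ (g 0)) (coord φ (g s)) from
    ⟨by rw [h0]; exact hd.le, hs2'⟩)
  refine ⟨x, hx.1, hx.2.trans hs1, ?_⟩
  rw [← coord_eq]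
  exact hxd

/-- if every line is met in time `ρ d` then the trajectory covers with every larger ratio -/
theorem slim_covers {g : ℝ → ℂ} {ρ ρ' : ℝ} (h' : 0 < ρ') (hle : ρ ≤ ρ')
    (h : ∀ φ d : ℝ, 0 < d → ∃ t : ℝ, 0 ≤ t ∧ t ≤ ρ * d ∧
      (g t).re * cos φ + (g t).im * sin φ = d) : Pool.Agent.H4.Shore.Covers g ρ' := by
  intro φ t ht
  obtain ⟨s, hs0, hs1, hs2⟩ := h φ (t / ρ') (by positivity)
  refine ⟨s, hs0, ?_, ?_⟩
  · calc s ≤ ρ * (t / ρ') := hs1
      _ ≤ ρ' * (t / ρ') := by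
        apply mul_le_mul_of_nonneg_right hle
        positivity
      _ = t := by field_simp
  · have h3 : coord φ (g s) = t / ρ' := by
      rw [coord_eq]
      exact hs2
    exact h3.ge

/-- **The minimax competitive ratio of the shoreline problem**, elementary form. -/
theorem slim : ∃ α ω : ℝ, 0 < α ∧ α < ω ∧ ω < π / 2 ∧
    (2 * π - α - ω) * tan α = log (cos α / cos ω) ∧
    (2 * π - α - ω) * (sin α * sin ω) = cos α ^ 2 * sin (α + ω) ∧
    0.2124695594 < tan α ∧ tan α < 0.2124695595 ∧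
    13.811135178 < 1 / (sin α * cos ω) ∧ 1 / (sin α * cos ω) < 13.811135181 ∧
    Pool.Agent.H4.Shore.IsTraj (fun t => (⟨sin α * t * cos (log t / tan α),
      sin α * t * sin (log t / tan α)⟩ : ℂ)) ∧
    (∀ φ d : ℝ, 0 < d → ∃ t : ℝ, 0 ≤ t ∧ t ≤ 1 / (sin α * cos ω) * d ∧
      sin α * t * cos (log t / tan α) * cos φ + sin α * t * sin (log t / tan α) * sin φ = d) ∧
    ∀ (g : ℝ → ℂ) (ρ : ℝ), Pool.Agent.H4.Shore.IsTraj g →
      (∀ φ d : ℝ, 0 < d → ∃ t : ℝ, 0 ≤ t ∧ t ≤ ρ * d ∧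
        (g t).re * cos φ + (g t).im * sin φ = d) → 1 / (sin α * cos ω) ≤ ρ := by
  obtain ⟨α, ω, h⟩ := exists_consts
  have p := Real.pi_gt_d20
  have h0 : 0 < α := by linarith [h.al]
  have h1 : α < ω := by linarith [h.au, h.wl]
  have h2 : ω < π / 2 := by linarith [h.wu]
  have hs : 0 < sin α := sin_pos_of_pos_of_lt_pi h0 (by linarith)
  have hcw : 0 < cos ω := cos_pos_of_mem_Ioo ⟨by linarith, by linarith⟩
  have hcw1 : cos ω < 1 := by
    have := Real.cos_lt_cos_of_nonneg_of_le_pi (x := 0) (y := ω) le_rfl (by linarith) (by linarith)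
    rwa [cos_zero] at this
  have hs1 : sin α ≤ 1 := sin_le_one α
  have hρ01 : 1 < 1 / (sin α * cos ω) := by
    rw [lt_div_iff₀ (by positivity), one_mul]
    nlinarith
  have hlow : ∀ g : ℝ → ℂ, Pool.Agent.H4.Shore.IsTraj g → ∀ ρ : ℝ, 1 < ρ →
      ρ < 1 / (sin α * cos ω) → ¬ Pool.Agent.H4.Shore.Covers g ρ := by
    intro g hg ρ h1 h2 hcov
    obtain ⟨β, N, Kr, hC⟩ := certX h
    exact Pool.Agent.H44.Shore.not_covers hC h1 h2 hg.toH44 hcov.toH44
  have hsp : (fun t : ℝ => (⟨sin α * t * cos (log t / tan α),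
      sin α * t * sin (log t / tan α)⟩ : ℂ)) = spiral α := by
    funext t
    unfold spiral
    apply Complex.ext
    · rw [Complex.re_ofReal_mul, Complex.exp_ofReal_mul_I_re]
    · rw [Complex.im_ofReal_mul, Complex.exp_ofReal_mul_I_im]
  refine ⟨α, ω, h0, h1, h2, h.E1, h.E2, h.tan_bounds.1, h.tan_bounds.2, h.rho_bounds.1,
    h.rho_bounds.2, ?_, ?_, ?_⟩
  · rw [hsp]
    exact isTraj_spiral α h0 (by linarith)
  · intro φ d hd
    have h5 := slim_finds (isTraj_spiral α h0 (by linarith)) (by linarith)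
      (covers_spiral α ω h0 h1 h2 h.E1.le) φ d hd
    rw [← hsp] at h5
    exact h5
  · intro g ρ hg hf
    by_contra hcon
    push Not at hcon
    have h6 : max ρ ((1 + 1 / (sin α * cos ω)) / 2) < 1 / (sin α * cos ω) :=
      max_lt hcon (by linarith)
    have h7 : 1 < max ρ ((1 + 1 / (sin α * cos ω)) / 2) :=
      lt_of_lt_of_le (by linarith) (le_max_right _ _)
    exact hlow g hg _ h7 h6 (slim_covers (by linarith) (le_max_left _ _) hf)

end Pool.Agent.H81.Shore
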